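import Pool.Agent.Q145.MD.Law

set_option autoImplicit false
set_option maxHeartbeats 4000000

/-! # The abstract law of moderate deviations -/

namespace Pool.Agent.Q145.MD

open Finset Filter
open Pool.Agent.Q145.RA (seqs card_seqs card_filter_inst)
open Pool.Agent.Q145.LD (hit Z)

open scoped Classical

variable {α β : Type}

/-- the deviations of size `y` -/
def Pt (ε v μ A : ℝ) (W : Finset α) (f : α → ℕ) (y : ℝ) : Prop :=
  (∀ B ⊆ W, (∀ n ∈ B, y * (μ * (1 + y * v)) ≤ y * f n) → (B.card : ℝ) ≤ Real.exp (A * (1 - y ^ 2 / 2 + ε))) ∧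
  (y ^ 2 ≤ 2 * (1 - ε) → Real.exp (A * (1 - y ^ 2 / 2 - 2 * ε)) ≤
    ((W.filter (fun n => |(f n : ℝ) - μ * (1 + y * v)| ≤ ε * v * μ)).card : ℝ))

theorem lower_count (τ ε ε₃ η v A M η₁ δ y : ℝ) (hs : Small τ ε ε₃ η v A M) (hδ : 0 < δ) (hη₁ : 0 ≤ η₁) (hη₁v : η₁ ≤ η * v)
    (hy : y ^ 2 ≤ 2 * (1 - ε)) (S : Finset β) (W : Finset α) (R : α → β → Prop) (hR : Reg2 η₁ η δ S W R)
    (hWA : (W.card : ℝ) = Real.exp A) (k : ℕ) (hk : (k * δ) * v ^ 2 = A) (hkA : (k : ℝ) + 1 ≤ Real.exp (η * A)) :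
    (((seqs S k).filter (fun s => ¬ (Real.exp (A * (1 - y ^ 2 / 2 - 2 * ε)) ≤
      ((W.filter (fun n => |(hit R s n : ℝ) - k * δ * (1 + y * v)| ≤ ε * v * (k * δ))).card : ℝ)))).card : ℝ) ≤
      τ / 2 * (S.card : ℝ) ^ k := by
  have hs' := hs
  obtain ⟨t0, e0, e1, e3, et, m, v0, v1, a1, a2, a3, a4⟩ := hs
  have hv256 : v ≤ 1 / 256 := by nlinarith
  have hW0 : (0 : ℝ) < W.card := by rw [hWA]; exact Real.exp_pos _
  have hWc : 0 < W.card := by exact_mod_cast hW0
  set μ : ℝ := k * δ with hμd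
  have hμ0 : 0 ≤ μ := by positivity
  have hy2 : y ^ 2 ≤ 2 := by linarith
  have hy32 : |y| ≤ 3 / 2 := by
    apply abs_le_of_sq_le_sq _ (by norm_num)
    linarith
  have hya := abs_nonneg y
  have hσa : |y * v| = |y| * v := by rw [abs_mul, abs_of_pos v0]
  have hσ1 : |y * v| ≤ 3 / 2 * v := by
    rw [hσa]
    exact mul_le_mul_of_nonneg_right hy32 v0.le
  set ς : ℝ := ε * v / 4 with hς
  have hς0 : 0 < ς := by positivity
  have hς1 : ς ≤ v / 4 := by
    rw [hς]
    nlinarith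
  have l1 := lower_Z τ ε ε₃ η v A M η₁ δ (y * v) hs' hδ hη₁ hη₁v (by
    rw [mul_pow]
    exact mul_le_mul_of_nonneg_right hy (sq_nonneg v)) S W R hR hWA k hk hkA
  have l2 := upper_Z τ ε ε₃ η v A M η₁ δ (y * v + ς) hs' hδ hη₁ hη₁v (by
    refine (abs_add_le _ _).trans ?_
    rw [abs_of_pos hς0]
    linarith) S W R hR hWc k hk
  have l3 := upper_Z τ ε ε₃ η v A M η₁ δ (y * v - ς) hs' hδ hη₁ hη₁v (by
    refine (abs_sub _ _).trans ?_
    rw [abs_of_pos hς0]
    linarith) S W R hR hWc k hk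
  have hsub : (seqs S k).filter (fun s => ¬ (Real.exp (A * (1 - y ^ 2 / 2 - 2 * ε)) ≤
      ((W.filter (fun n => |(hit R s n : ℝ) - μ * (1 + y * v)| ≤ ε * v * μ)).card : ℝ))) ⊆
      (seqs S k).filter (fun s => ¬ (W.card * Real.exp ((Real.exp (y * v) - 1) * μ - ε₃ * A) <
        Z (Real.exp (y * v)) W (hit R s))) ∪
      ((seqs S k).filter (fun s => ¬ (Z (Real.exp (y * v + ς)) W (hit R s) ≤
        W.card * Real.exp ((Real.exp (y * v + ς) - 1) * μ + ε₃ * A))) ∪
      (seqs S k).filter (fun s => ¬ (Z (Real.exp (y * v - ς)) W (hit R s) ≤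
        W.card * Real.exp ((Real.exp (y * v - ς) - 1) * μ + ε₃ * A)))) := by
    intro s hs
    obtain ⟨h1, h2⟩ := mem_filter.1 hs
    by_contra h3
    rw [mem_union, mem_union, not_or, not_or, mem_filter, mem_filter, mem_filter, not_and_not_right, not_and_not_right,
      not_and_not_right] at h3
    obtain ⟨h4, h5, h6⟩ := h3
    apply h2
    have hμv : μ * v ^ 2 = A := hk
    have g1 : μ * (2 * ς ^ 2 + ς * (y * v) ^ 2) + 3 * ε₃ * A ≤ ς * (ε * v * μ) := by
      have f1 : μ * (2 * ς ^ 2 + ς * (y * v) ^ 2) = ε ^ 2 / 8 * (μ * v ^ 2) + ε / 4 * v * y ^ 2 * (μ * v ^ 2) := by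
        rw [hς]
        ring
      have f2 : ς * (ε * v * μ) = ε ^ 2 / 4 * (μ * v ^ 2) := by
        rw [hς]
        ring
      rw [f1, f2, hμv, e3]
      have f3 : ε / 4 * v * y ^ 2 * A ≤ ε ^ 2 / 512 * A := by
        apply mul_le_mul_of_nonneg_right _ a4
        calc ε / 4 * v * y ^ 2 ≤ ε / 4 * v * 2 := mul_le_mul_of_nonneg_left hy2 (by positivity)
          _ = ε / 2 * v := by ring
          _ ≤ ε / 2 * (ε ^ 2 / 256) := mul_le_mul_of_nonneg_left v1 (by positivity)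
          _ = ε ^ 2 / 512 * ε := by ring
          _ ≤ ε ^ 2 / 512 * 1 := mul_le_mul_of_nonneg_left e1 (by positivity)
          _ = ε ^ 2 / 512 := by ring
      have f4 : 0 ≤ ε ^ 2 * A := by positivity
      linarith
    have g2 := window (y * v) ς (ε * v * μ) μ A ε₃ (by linarith) hς0 (by linarith) hμ0 g1 a3 W (hit R s)
      (h4 h1).le (h5 h1) (h6 h1)
    refine le_trans ?_ g2
    rw [hWA, ← Real.exp_add]
    apply Real.exp_le_exp.2
    have f1 : μ * ((y * v) ^ 2 / 2 + |y * v| ^ 3) + |y * v| * (ε * v * μ) + 2 * ε₃ * A ≤ (y ^ 2 / 2 + 2 * ε) * A := by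
      have k1 : μ * ((y * v) ^ 2 / 2) = y ^ 2 / 2 * A := by
        rw [← hμv]
        ring
      have k2 : μ * |y * v| ^ 3 ≤ 4 * v * A := by
        calc μ * |y * v| ^ 3 ≤ μ * (3 / 2 * v) ^ 3 :=
              mul_le_mul_of_nonneg_left (pow_le_pow_left₀ (abs_nonneg _) hσ1 3) hμ0
          _ = 27 / 8 * v * (μ * v ^ 2) := by ring
          _ ≤ 4 * v * A := by
            rw [hμv]
            have : 0 ≤ v * A := by positivity
            linarith
      have k3 : |y * v| * (ε * v * μ) ≤ 3 / 2 * ε * A := by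
        calc |y * v| * (ε * v * μ) ≤ (3 / 2 * v) * (ε * v * μ) := mul_le_mul_of_nonneg_right hσ1 (by positivity)
          _ = 3 / 2 * ε * (μ * v ^ 2) := by ring
          _ = _ := by rw [hμv]
      have k4 : 4 * v * A ≤ ε / 64 * A := by
        apply mul_le_mul_of_nonneg_right _ a4
        nlinarith
      have k5 : 2 * ε₃ * A ≤ ε / 32 * A := by
        apply mul_le_mul_of_nonneg_right _ a4
        rw [e3]
        nlinarith
      have k6 : 0 ≤ ε * A := by positivity
      rw [mul_add, k1]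
      linarith
    linarith
  have hcr := card_le_card hsub
  have hcr2 : (((seqs S k).filter (fun s => ¬ (Real.exp (A * (1 - y ^ 2 / 2 - 2 * ε)) ≤
      ((W.filter (fun n => |(hit R s n : ℝ) - μ * (1 + y * v)| ≤ ε * v * μ)).card : ℝ)))).card : ℝ) ≤
      (((seqs S k).filter (fun s => ¬ (W.card * Real.exp ((Real.exp (y * v) - 1) * μ - ε₃ * A) <
        Z (Real.exp (y * v)) W (hit R s)))).card : ℝ) +
      ((((seqs S k).filter (fun s => ¬ (Z (Real.exp (y * v + ς)) W (hit R s) ≤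
        W.card * Real.exp ((Real.exp (y * v + ς) - 1) * μ + ε₃ * A)))).card : ℝ) +
      (((seqs S k).filter (fun s => ¬ (Z (Real.exp (y * v - ς)) W (hit R s) ≤
        W.card * Real.exp ((Real.exp (y * v - ς) - 1) * μ + ε₃ * A)))).card : ℝ)) := by
    have := hcr.trans ((card_union_le _ _).trans (Nat.add_le_add_left (card_union_le _ _) _))
    exact_mod_cast this
  linarith

theorem upper_count (τ ε ε₃ η v A M η₁ δ y : ℝ) (hs : Small τ ε ε₃ η v A M) (hδ : 0 < δ) (hη₁ : 0 ≤ η₁) (hη₁v : η₁ ≤ η * v)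
    (hy : |y| ≤ 4) (S : Finset β) (W : Finset α) (R : α → β → Prop) (hR : Reg2 η₁ η δ S W R)
    (hWA : (W.card : ℝ) = Real.exp A) (k : ℕ) (hk : (k * δ) * v ^ 2 = A) :
    (((seqs S k).filter (fun s => ¬ (∀ B ⊆ W, (∀ n ∈ B, y * (k * δ * (1 + y * v)) ≤ y * hit R s n) →
      (B.card : ℝ) ≤ Real.exp (A * (1 - y ^ 2 / 2 + ε))))).card : ℝ) ≤ τ / 8 * (S.card : ℝ) ^ k := by
  have hs' := hs
  obtain ⟨t0, e0, e1, e3, et, m, v0, v1, a1, a2, a3, a4⟩ := hs
  have hv256 : v ≤ 1 / 256 := by nlinarith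
  have hW0 : (0 : ℝ) < W.card := by rw [hWA]; exact Real.exp_pos _
  have hWc : 0 < W.card := by exact_mod_cast hW0
  set μ : ℝ := k * δ with hμd
  have hμ0 : 0 ≤ μ := by positivity
  have hσa : |y * v| = |y| * v := by rw [abs_mul, abs_of_pos v0]
  have hσ1 : |y * v| ≤ 4 * v := by
    rw [hσa]
    exact mul_le_mul_of_nonneg_right hy v0.le
  have l1 := upper_Z τ ε ε₃ η v A M η₁ δ (y * v) hs' hδ hη₁ hη₁v hσ1 S W R hR hWc k hk
  refine le_trans ?_ l1
  apply Nat.cast_le.2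
  apply card_le_card
  intro s hs
  rw [mem_filter] at hs ⊢
  refine ⟨hs.1, fun hZ => hs.2 fun B hB hdev => ?_⟩
  have g1 := tail (y * v) μ A ε₃ (by linarith) hμ0 W (hit R s) B hB (fun n hn => by
    have := mul_le_mul_of_nonneg_left (hdev n hn) v0.le
    calc y * v * (μ * (1 + y * v)) = v * (y * (μ * (1 + y * v))) := by ring
      _ ≤ v * (y * hit R s n) := this
      _ = y * v * hit R s n := by ring) hZ
  refine g1.trans ?_
  rw [hWA, ← Real.exp_add]
  apply Real.exp_le_exp.2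
  have hμv : μ * v ^ 2 = A := hk
  have k1 : μ * ((y * v) ^ 2 / 2) = y ^ 2 / 2 * A := by
    rw [← hμv]
    ring
  have k2 : μ * |y * v| ^ 3 ≤ 64 * v * A := by
    calc μ * |y * v| ^ 3 ≤ μ * (4 * v) ^ 3 :=
          mul_le_mul_of_nonneg_left (pow_le_pow_left₀ (abs_nonneg _) hσ1 3) hμ0
      _ = 64 * v * (μ * v ^ 2) := by ring
      _ = 64 * v * A := by rw [hμv]
  have k4 : 64 * v * A ≤ ε / 4 * A := by
    apply mul_le_mul_of_nonneg_right _ a4
    nlinarith
  have k5 : ε₃ * A ≤ ε / 64 * A := by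
    apply mul_le_mul_of_nonneg_right _ a4
    rw [e3]
    nlinarith
  have k6 : 0 ≤ ε * A := by positivity
  rw [mul_sub, k1]
  linarith

theorem point (τ ε ε₃ η v A M η₁ δ y : ℝ) (hs : Small τ ε ε₃ η v A M) (hδ : 0 < δ) (hη₁ : 0 ≤ η₁) (hη₁v : η₁ ≤ η * v)
    (hy : |y| ≤ 4) (S : Finset β) (W : Finset α) (R : α → β → Prop) (hR : Reg2 η₁ η δ S W R)
    (hWA : (W.card : ℝ) = Real.exp A) (k : ℕ) (hk : (k * δ) * v ^ 2 = A) (hkA : (k : ℝ) + 1 ≤ Real.exp (η * A)) :
    (((seqs S k).filter (fun s => ¬ Pt ε v (k * δ) A W (hit R s) y)).card : ℝ) ≤ τ * (S.card : ℝ) ^ k := by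
  have t0 := hs.t0
  have hSk : (0 : ℝ) ≤ (S.card : ℝ) ^ k := by positivity
  have u := upper_count τ ε ε₃ η v A M η₁ δ y hs hδ hη₁ hη₁v hy S W R hR hWA k hk
  by_cases h : y ^ 2 ≤ 2 * (1 - ε)
  · have l := lower_count τ ε ε₃ η v A M η₁ δ y hs hδ hη₁ hη₁v h S W R hR hWA k hk hkA
    have hsub : (seqs S k).filter (fun s => ¬ Pt ε v (k * δ) A W (hit R s) y) ⊆
        (seqs S k).filter (fun s => ¬ (∀ B ⊆ W, (∀ n ∈ B, y * (k * δ * (1 + y * v)) ≤ y * hit R s n) →
          (B.card : ℝ) ≤ Real.exp (A * (1 - y ^ 2 / 2 + ε)))) ∪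
        (seqs S k).filter (fun s => ¬ (Real.exp (A * (1 - y ^ 2 / 2 - 2 * ε)) ≤
          ((W.filter (fun n => |(hit R s n : ℝ) - k * δ * (1 + y * v)| ≤ ε * v * (k * δ))).card : ℝ))) := by
      intro s hs
      obtain ⟨h1, h2⟩ := mem_filter.1 hs
      by_contra h3
      rw [mem_union, not_or, mem_filter, mem_filter, not_and_not_right, not_and_not_right] at h3
      exact h2 ⟨h3.1 h1, fun _ => h3.2 h1⟩
    have hcr : (((seqs S k).filter (fun s => ¬ Pt ε v (k * δ) A W (hit R s) y)).card : ℝ) ≤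
        (((seqs S k).filter (fun s => ¬ (∀ B ⊆ W, (∀ n ∈ B, y * (k * δ * (1 + y * v)) ≤ y * hit R s n) →
          (B.card : ℝ) ≤ Real.exp (A * (1 - y ^ 2 / 2 + ε))))).card : ℝ) +
        (((seqs S k).filter (fun s => ¬ (Real.exp (A * (1 - y ^ 2 / 2 - 2 * ε)) ≤
          ((W.filter (fun n => |(hit R s n : ℝ) - k * δ * (1 + y * v)| ≤ ε * v * (k * δ))).card : ℝ)))).card : ℝ) := by
      exact_mod_cast (card_le_card hsub).trans (card_union_le _ _)
    have := mul_nonneg t0.le hSk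
    linarith
  · refine le_trans ?_ (u.trans (mul_le_mul_of_nonneg_right (by linarith) hSk))
    apply Nat.cast_le.2
    apply card_le_card
    intro s hs
    rw [mem_filter] at hs ⊢
    exact ⟨hs.1, fun h1 => hs.2 ⟨h1, fun h2 => absurd h2 h⟩⟩

/-- **The law of the moderate deviations**: for every `x ≥ 0`, the number of `n ∈ W` for which `f n` exceeds (falls
short of) `μ` by `x √(μA)`, `v = √(A/μ)` -/
def MLaw (ε v μ A : ℝ) (W : Finset α) (f : α → ℕ) : Prop := ∀ x : ℝ, 0 ≤ x →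
  ((W.filter (fun n => μ * (1 + x * v) ≤ f n)).card : ℝ) ≤ Real.exp (A * (1 - x ^ 2 / 2 + ε)) ∧
  ((W.filter (fun n => (f n : ℝ) ≤ μ * (1 - x * v))).card : ℝ) ≤ Real.exp (A * (1 - x ^ 2 / 2 + ε)) ∧
  (x ^ 2 ≤ 2 * (1 - ε) → Real.exp (A * (1 - x ^ 2 / 2 - ε)) ≤ ((W.filter (fun n => μ * (1 + x * v) ≤ f n)).card : ℝ) ∧
    Real.exp (A * (1 - x ^ 2 / 2 - ε)) ≤ ((W.filter (fun n => (f n : ℝ) ≤ μ * (1 - x * v))).card : ℝ))

theorem law_of_pts (ε v μ A : ℝ) (h0 : 0 < ε) (h1 : ε ≤ 1) (hv : 0 < v) (hμ : 0 ≤ μ) (hA : 0 < A) (N : ℕ)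
    (hN : 3 ≤ N * (ε / 16)) (W : Finset α) (f : α → ℕ)
    (hp : ∀ i ≤ N, Pt (ε / 16) v μ A W f (i * (ε / 16)))
    (hn : ∀ i ≤ N, Pt (ε / 16) v μ A W f (-(i * (ε / 16)))) : MLaw ε v μ A W f := by
  intro x hx
  set e : ℝ := ε / 16 with he
  have he0 : 0 < e := by positivity
  -- the upper bound
  have U : ∀ B ⊆ W, (∀ n ∈ B, μ * (1 + x * v) ≤ f n) ∨ (∀ n ∈ B, (f n : ℝ) ≤ μ * (1 - x * v)) →
      (B.card : ℝ) ≤ Real.exp (A * (1 - x ^ 2 / 2 + ε)) := by
    intro B hB hdev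
    obtain ⟨i, hi, hix, hxi⟩ : ∃ i ≤ N, i * e ≤ x ∧ (x ≤ i * e + e ∨ 3 ≤ i * e) := by
      rcases le_or_gt (N * e) x with h | h
      · exact ⟨N, le_refl _, h, Or.inr hN⟩
      · refine ⟨⌊x / e⌋₊, ?_, ?_, Or.inl ?_⟩
        · have h2 : x / e < N := by
            rw [div_lt_iff₀ he0]
            exact h
          have h3 : (⌊x / e⌋₊ : ℝ) ≤ x / e := Nat.floor_le (by positivity)
          have h4 : (⌊x / e⌋₊ : ℝ) < N := lt_of_le_of_lt h3 h2
          have h5 : ⌊x / e⌋₊ < N := by exact_mod_cast h4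
          exact h5.le
        · have h3 : (⌊x / e⌋₊ : ℝ) ≤ x / e := Nat.floor_le (by positivity)
          rwa [le_div_iff₀ he0] at h3
        · have h3 := (Nat.lt_floor_add_one (x / e)).le
          rw [div_le_iff₀ he0] at h3
          linarith
    set y : ℝ := i * e with hy
    have hy0 : 0 ≤ y := by positivity
    have key : (B.card : ℝ) ≤ Real.exp (A * (1 - y ^ 2 / 2 + e)) := by
      rcases hdev with hdev | hdev
      · refine (hp i hi).1 B hB fun n hn => ?_
        apply mul_le_mul_of_nonneg_left _ hy0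
        refine le_trans ?_ (hdev n hn)
        apply mul_le_mul_of_nonneg_left _ hμ
        have := mul_le_mul_of_nonneg_right hix hv.le
        linarith
      · have h2 := (hn i hi).1 B hB fun n hn => by
          have h3 : (f n : ℝ) ≤ μ * (1 - y * v) := by
            refine (hdev n hn).trans ?_
            apply mul_le_mul_of_nonneg_left _ hμ
            have := mul_le_mul_of_nonneg_right hix hv.le
            linarith
          have h4 := mul_le_mul_of_nonneg_left h3 hy0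
          rw [← hy]
          calc -y * (μ * (1 + -y * v)) = -(y * (μ * (1 - y * v))) := by ring
            _ ≤ -(y * f n) := by linarith
            _ = -y * f n := by ring
        rw [← hy, neg_sq] at h2
        exact h2
    rcases le_or_gt x 3 with hx3 | hx3
    · refine key.trans (Real.exp_le_exp.2 ?_)
      apply mul_le_mul_of_nonneg_left _ hA.le
      have hxy : x ≤ y + e := by
        rcases hxi with h | h
        · exact h
        · linarith
      have : x ^ 2 ≤ y ^ 2 + 6 * e := by nlinarith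
      rw [he] at this ⊢
      linarith
    · have hy3 : 3 - e ≤ y := by
        rcases hxi with h | h
        · linarith
        · linarith
      have h2 : (B.card : ℝ) < 1 := by
        refine lt_of_le_of_lt key ?_
        rw [Real.exp_lt_one_iff]
        have h3 : 1 - y ^ 2 / 2 + e < 0 := by
          have : e ≤ 1 / 16 := by rw [he]; linarith
          nlinarith
        exact mul_neg_of_pos_of_neg hA h3
      have h3 : B.card = 0 := by
        have : B.card < 1 := by exact_mod_cast h2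
        omega
      rw [h3, Nat.cast_zero]
      exact (Real.exp_pos _).le
  refine ⟨U _ (filter_subset _ _) (Or.inl fun n hn => (mem_filter.1 hn).2),
    U _ (filter_subset _ _) (Or.inr fun n hn => (mem_filter.1 hn).2), fun hx2 => ?_⟩
  have hx32 : x ≤ 3 / 2 := by nlinarith
  -- the grid point
  obtain ⟨i, hi, hi1, hi2⟩ : ∃ i ≤ N, x + e ≤ i * e ∧ i * e ≤ x + 2 * e := by
    refine ⟨⌈(x + e) / e⌉₊, ?_, ?_, ?_⟩
    · apply Nat.ceil_le.2
      rw [div_le_iff₀ he0]
      refine le_trans ?_ hN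
      rw [he]
      linarith
    · have h3 := Nat.le_ceil ((x + e) / e)
      rwa [div_le_iff₀ he0] at h3
    · have h3 := (Nat.ceil_lt_add_one (show 0 ≤ (x + e) / e by positivity)).le
      have h4 : (⌈(x + e) / e⌉₊ : ℝ) * e ≤ ((x + e) / e + 1) * e := mul_le_mul_of_nonneg_right h3 he0.le
      have h5 : ((x + e) / e + 1) * e = x + 2 * e := by
        field_simp
        ring
      linarith
  set y : ℝ := i * e with hy
  have hy0 : 0 ≤ y := by positivity
  have hyx : y ^ 2 ≤ x ^ 2 + 7 * e := by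
    have : e ≤ 1 / 16 := by rw [he]; linarith
    nlinarith
  have hy2 : y ^ 2 ≤ 2 * (1 - e) := by
    rw [he] at hyx ⊢
    linarith
  have hexp : Real.exp (A * (1 - x ^ 2 / 2 - ε)) ≤ Real.exp (A * (1 - y ^ 2 / 2 - 2 * e)) := by
    apply Real.exp_le_exp.2
    apply mul_le_mul_of_nonneg_left _ hA.le
    rw [he] at hyx ⊢
    linarith
  constructor
  · refine (hexp.trans ((hp i hi).2 hy2)).trans ?_
    apply Nat.cast_le.2
    apply card_le_card
    intro n hn
    rw [mem_filter] at hn ⊢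
    refine ⟨hn.1, ?_⟩
    have h3 := (abs_le.1 hn.2).1
    rw [← hy] at h3
    have h4 : μ * (1 + x * v) ≤ μ * (1 + y * v) - e * v * μ := by
      have h5 : x * v ≤ y * v - e * v := by
        have := mul_le_mul_of_nonneg_right hi1 hv.le
        linarith
      have h6 := mul_le_mul_of_nonneg_left h5 hμ
      linarith
    linarith
  · have h2 := (hn i hi).2
    rw [← hy, neg_sq] at h2
    refine (hexp.trans (h2 hy2)).trans ?_
    apply Nat.cast_le.2
    apply card_le_card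
    intro n hn
    rw [mem_filter] at hn ⊢
    refine ⟨hn.1, ?_⟩
    have h3 := (abs_le.1 hn.2).2
    have h4 : μ * (1 + -y * v) + e * v * μ ≤ μ * (1 - x * v) := by
      have h5 : x * v ≤ y * v - e * v := by
        have := mul_le_mul_of_nonneg_right hi1 hv.le
        linarith
      have h6 := mul_le_mul_of_nonneg_left h5 hμ
      linarith
    linarith

/-- **The abstract law of moderate deviations.** -/
theorem mlaw (τ ε : ℝ) (ht : 0 < τ) (h0 : 0 < ε) (h1 : ε ≤ 1) : ∃ η A₀ : ℝ, 0 < η ∧ 0 < A₀ ∧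
    ∀ (A v δ η₁ : ℝ) (S : Finset β) (W : Finset α) (R : α → β → Prop) (k : ℕ), A₀ ≤ A → 0 < v → v ≤ η →
    0 < δ → 0 ≤ η₁ → η₁ ≤ η * v → Reg2 η₁ η δ S W R → (W.card : ℝ) = Real.exp A → (k * δ) * v ^ 2 = A →
    (k : ℝ) + 1 ≤ Real.exp (η * A) →
    (((seqs S k).filter (fun s => ¬ MLaw ε v (k * δ) A W (hit R s))).card : ℝ) ≤ τ * (S.card : ℝ) ^ k := by
  set e : ℝ := ε / 16 with he
  have he0 : 0 < e := by positivity
  have he1 : e ≤ 1 := by rw [he]; linarith
  set N : ℕ := ⌈3 / e⌉₊ with hN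
  have hN3 : 3 ≤ N * e := by
    have := Nat.le_ceil (3 / e)
    rwa [div_le_iff₀ he0] at this
  have hN4 : N * e ≤ 4 := by
    have h3 := (Nat.ceil_lt_add_one (show 0 ≤ 3 / e by positivity)).le
    have h4 : (⌈3 / e⌉₊ : ℝ) * e ≤ (3 / e + 1) * e := mul_le_mul_of_nonneg_right h3 he0.le
    have h5 : (3 / e + 1) * e = 3 + e := by
      field_simp
    rw [← hN] at h4
    linarith
  set t : ℝ := τ / (2 * (N + 1)) with htd
  have ht0 : 0 < t := by positivity
  obtain ⟨A₀, hA₀⟩ := small_ev t e ht0 he0 he1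
  refine ⟨e ^ 2 / 64 / 80, max A₀ 1, by positivity, by positivity, ?_⟩
  intro A v δ η₁ S W R k hA hv hvη hδ hη₁ hη₁v hR hWA hk hkA
  have hA1 : A₀ ≤ A := (le_max_left _ _).trans hA
  have hA2 : 1 ≤ A := (le_max_right _ _).trans hA
  have hv1 : v ≤ e ^ 2 / 256 := by
    refine hvη.trans ?_
    have := sq_nonneg e
    linarith
  have hs := hA₀ A v hA1 hv hv1
  have hμ0 : 0 ≤ (k : ℝ) * δ := by positivity
  have hSk : (0 : ℝ) ≤ (S.card : ℝ) ^ k := by positivity
  have hp : ∀ y : ℝ, |y| ≤ 4 → (((seqs S k).filter (fun s => ¬ Pt e v (k * δ) A W (hit R s) y)).card : ℝ) ≤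
      t * (S.card : ℝ) ^ k := fun y hy =>
    point t e (e ^ 2 / 64) (e ^ 2 / 64 / 80) v A (128 / (e ^ 2 / 64)) η₁ δ y hs hδ hη₁ hη₁v hy S W R hR hWA k hk hkA
  have hsub : (seqs S k).filter (fun s => ¬ MLaw ε v (k * δ) A W (hit R s)) ⊆
      (range (N + 1)).biUnion (fun i => (seqs S k).filter (fun s => ¬ Pt e v (k * δ) A W (hit R s) (i * e)) ∪
        (seqs S k).filter (fun s => ¬ Pt e v (k * δ) A W (hit R s) (-(i * e)))) := by
    intro s hs
    obtain ⟨h2, h3⟩ := mem_filter.1 hs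
    by_contra h4
    apply h3
    have h5 : ∀ i ≤ N, Pt e v (k * δ) A W (hit R s) (i * e) ∧ Pt e v (k * δ) A W (hit R s) (-(i * e)) := by
      intro i hi
      by_contra h6
      apply h4
      refine mem_biUnion.2 ⟨i, mem_range.2 (by omega), ?_⟩
      rw [not_and_or] at h6
      rcases h6 with h6 | h6
      · exact mem_union_left _ (mem_filter.2 ⟨h2, h6⟩)
      · exact mem_union_right _ (mem_filter.2 ⟨h2, h6⟩)
    exact law_of_pts ε v (k * δ) A h0 h1 hv hμ0 (by linarith) N hN3 W (hit R s) (fun i hi => (h5 i hi).1)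
      (fun i hi => (h5 i hi).2)
  have hcr : (((seqs S k).filter (fun s => ¬ MLaw ε v (k * δ) A W (hit R s))).card : ℝ) ≤
      ∑ i ∈ range (N + 1), ((((seqs S k).filter (fun s => ¬ Pt e v (k * δ) A W (hit R s) (i * e))).card : ℝ) +
        (((seqs S k).filter (fun s => ¬ Pt e v (k * δ) A W (hit R s) (-(i * e)))).card : ℝ)) := by
    have h2 := (card_le_card hsub).trans card_biUnion_le
    have h3 := h2.trans (sum_le_sum fun i _ => card_union_le _ _)
    exact_mod_cast h3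
  refine hcr.trans ?_
  have h4 : ∀ i ∈ range (N + 1), ((((seqs S k).filter (fun s => ¬ Pt e v (k * δ) A W (hit R s) (i * e))).card : ℝ) +
        (((seqs S k).filter (fun s => ¬ Pt e v (k * δ) A W (hit R s) (-(i * e)))).card : ℝ)) ≤
      2 * t * (S.card : ℝ) ^ k := by
    intro i hi
    have h5 : (i : ℝ) ≤ N := by
      have := mem_range.1 hi
      exact_mod_cast (by omega : i ≤ N)
    have h6 : (i : ℝ) * e ≤ 4 := (mul_le_mul_of_nonneg_right h5 he0.le).trans hN4
    have h7 : 0 ≤ (i : ℝ) * e := by positivity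
    have g1 := hp (i * e) (by rw [abs_of_nonneg h7]; exact h6)
    have g2 := hp (-(i * e)) (by rw [abs_neg, abs_of_nonneg h7]; exact h6)
    linarith
  refine (sum_le_sum h4).trans (le_of_eq ?_)
  rw [sum_const, card_range, nsmul_eq_mul, htd]
  push_cast
  field_simp

end Pool.Agent.Q145.MD
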