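import Pool.Agent.Q145.MD.Deg2
import Pool.Agent.Q145.MD.Grid
import Pool.Agent.Q145.RA.MultLaw

set_option autoImplicit false
set_option maxHeartbeats 4000000

/-! # The law of moderate deviations for the reduced classes -/

namespace Pool.Agent.Q145.MD

open Finset Filter
open Pool.Agent.H442R2.KF (piAP piN Er bv)
open Pool.Agent.Q145.RA (cnt Cl card_Cl seqs card_filter_inst growthM ratio_log shiftsM_bd totient_le_one)
open Pool.Agent.Q145.LD (hit)

open scoped Classical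

/-- precise regularity at a modulus -/
theorem reg2_cl (η : ℝ) (hη : 0 < η) : ∃ Y₀ : ℕ, ∀ d Y : ℕ, 2 ≤ d → Y₀ ≤ Y → d ≤ Y → ∀ η₁ : ℝ,
    ((d : ℝ) * Y) / (2 * d.totient * Real.log (d * Y : ℝ)) ≤ refv d Y →
    (∀ a : ℕ, 1 ≤ a → a ≤ d → a.Coprime d → |(cnt d Y a : ℝ) - refv d Y| ≤ η₁ * refv d Y) →
    Reg2 η₁ η (refv d Y / Y) (Icc 1 Y) (Cl d) (fun a s => (a + s * d).Prime) := by
  obtain ⟨C₂, hC₂, Y₂, h2⟩ := shiftsM_bd 2 (by norm_num)
  obtain ⟨C, hC, hrat⟩ := ratio_log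
  obtain ⟨Y₄, h4⟩ := eventually_atTop.1 (growthM (4 * C₂ * C) η (by positivity) hη)
  refine ⟨max Y₂ Y₄, fun d Y hd2 hY hdY η₁ href hdeg => ?_⟩
  have hY₂ : Y₂ ≤ Y := (le_max_left _ _).trans hY
  have hY₄ : Y₄ ≤ Y := (le_max_right _ _).trans hY
  obtain ⟨g1, g2, g3⟩ := h4 Y hY₄
  have hdr : (2 : ℝ) ≤ d := by exact_mod_cast hd2
  have hdYr : (d : ℝ) ≤ Y := by exact_mod_cast hdY
  have hφ0 : (0 : ℝ) < d.totient := by exact_mod_cast Nat.totient_pos.2 (by omega)
  set L := Real.log (Y : ℝ) with hL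
  set G := Real.log L with hG
  set Φ : ℝ := (d : ℝ) / d.totient with hΦ
  have hL0 : 0 < L := by linarith
  have hG0 : 0 < G := by linarith
  have hY0 : (0 : ℝ) < Y := by linarith
  have hΦ1 : 1 ≤ Φ := totient_le_one d (by omega)
  have hld : Real.log (d : ℝ) ≤ L := Real.log_le_log (by linarith) hdYr
  have hΦG : Φ ≤ C * G := hrat d L (by omega) g1 hld
  set W : ℝ := Real.log (d * Y : ℝ) with hW
  have hWL : W ≤ 2 * L := by
    rw [hW, Real.log_mul (by linarith) (by linarith)]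
    linarith
  have hLW : L ≤ W := by
    rw [hW, hL]
    apply Real.log_le_log hY0
    nlinarith
  have hW0 : 0 < W := by linarith
  have hcard : ((Icc 1 Y).card : ℝ) = Y := by
    rw [Nat.card_Icc, Nat.add_sub_cancel]
  have hδY : ∀ c : ℝ, c * (refv d Y / Y) * Y = c * refv d Y := by
    intro c
    field_simp
  refine ⟨?_, ?_, ?_⟩
  · intro n hn
    obtain ⟨h6, h7⟩ := mem_filter.1 hn
    have h8 := (abs_le.1 (hdeg n (mem_Icc.1 h6).1 (mem_Icc.1 h6).2 h7)).1
    rw [hcard, hδY]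
    have h9 : (1 - η₁) * refv d Y ≤ cnt d Y n := by linarith
    exact h9.trans (le_of_eq (congrArg Nat.cast (card_filter_inst _ _ _ _)))
  · intro n hn
    obtain ⟨h6, h7⟩ := mem_filter.1 hn
    have h8 := (abs_le.1 (hdeg n (mem_Icc.1 h6).1 (mem_Icc.1 h6).2 h7)).2
    rw [hcard, hδY]
    have h9 : (cnt d Y n : ℝ) ≤ (1 + η₁) * refv d Y := by linarith
    exact (le_of_eq (congrArg Nat.cast (card_filter_inst _ _ _ _))).trans h9
  · intro n hn m hm hnm
    rw [hcard, hδY]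
    have h5 := h2 Y hY₂ d (by omega) {n, m} (card_pair hnm) (fun n' hn' => by
      have hn'' : n' ∈ Cl d := by
        rw [mem_insert, mem_singleton] at hn'
        rcases hn' with h | h
        · rw [h]; exact hn
        · rw [h]; exact hm
      obtain ⟨h6, h7⟩ := mem_filter.1 hn''
      exact ⟨(mem_Icc.1 h6).2.trans hdY, h7⟩)
    have h6 : (((Icc 1 Y).filter (fun s => (n + s * d).Prime ∧ (m + s * d).Prime)).card : ℝ) ≤
        (((Icc 1 Y).filter (fun s => ∀ n' ∈ ({n, m} : Finset ℕ), (n' + s * d).Prime)).card : ℝ) := by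
      apply Nat.cast_le.2
      apply card_le_card
      intro s hs
      rw [mem_filter] at hs ⊢
      refine ⟨hs.1, fun n' hn' => ?_⟩
      rw [mem_insert, mem_singleton] at hn'
      rcases hn' with h | h
      · rw [h]; exact hs.2.1
      · rw [h]; exact hs.2.2
    refine (le_of_eq (congrArg Nat.cast (card_filter_inst _ _ _ _))).trans
      ((h6.trans ((le_of_eq (congrArg Nat.cast (card_filter_inst _ _ _ _))).trans h5)).trans ?_)
    rw [show 2 - 1 = 1 by norm_num, pow_one]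
    have e0 : Φ * Y / (2 * W) ≤ refv d Y := by
      refine le_trans (le_of_eq ?_) href
      rw [hΦ]
      field_simp
    refine le_trans ?_ (mul_le_mul_of_nonneg_left e0 hη.le)
    have f1 : C₂ * G * Φ ≤ C₂ * C * G ^ 4 := by
      calc C₂ * G * Φ ≤ C₂ * G * (C * G) := mul_le_mul_of_nonneg_left hΦG (by positivity)
        _ = C₂ * C * G ^ 2 := by ring
        _ ≤ C₂ * C * G ^ 4 := by
          apply mul_le_mul_of_nonneg_left _ (by positivity)
          exact pow_le_pow_right₀ g2 (by norm_num)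
    have f2 : 4 * (C₂ * G * Φ) ≤ η * L := by linarith
    have f3 : C₂ * G * Φ ^ 2 / L ^ 2 * Y ≤ η * (Φ * Y / (4 * L)) := by
      rw [← mul_div_assoc, div_mul_eq_mul_div, div_le_div_iff₀ (by positivity) (by positivity)]
      calc C₂ * G * Φ ^ 2 * Y * (4 * L) = (4 * (C₂ * G * Φ)) * (Φ * L * Y) := by ring
        _ ≤ (η * L) * (Φ * L * Y) := mul_le_mul_of_nonneg_right f2 (by positivity)
        _ = η * (Φ * Y) * L ^ 2 := by ring
    refine f3.trans ?_
    apply mul_le_mul_of_nonneg_left _ hη.le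
    apply div_le_div_of_nonneg_left (by positivity) (by positivity)
    linarith

/-- **Moderate deviations for the reduced classes to almost all moduli.** -/
theorem mlaw_cl (ε : ℝ) (hε : 0 < ε) (hε1 : ε ≤ 1) : ∃ κ : ℝ, 0 < κ ∧ ∀ A : ℕ, ∃ D₀ : ℕ, ∀ D Y : ℕ, D₀ ≤ D →
    (D : ℝ) ^ (1 + ε) ≤ Y → Real.log Y ≤ Real.log D ^ A →
    ∃ B ⊆ Icc 1 D, (B.card : ℝ) ≤ D / Real.log D ^ A ∧ ∀ d ∈ Icc 1 D, D < 2 * d → d ∉ B → ∀ K : ℕ,
    κ * Real.log d.totient ≤ K * (refv d Y / Y) → (K : ℝ) ≤ Real.log D ^ A →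
    0 < Real.log (d.totient : ℝ) ∧ 0 < (K : ℝ) * (refv d Y / Y) ∧
    (((seqs (Icc 1 Y) K).filter (fun s => ¬ MLaw ε (Real.sqrt (Real.log d.totient / (K * (refv d Y / Y))))
      (K * (refv d Y / Y)) (Real.log d.totient) (Cl d) (hit (fun a s => (a + s * d).Prime) s))).card : ℝ) ≤
      ε * (Y : ℝ) ^ K := by
  obtain ⟨η, A₀, hη, hA₀, hlaw⟩ := mlaw (α := ℕ) (β := ℕ) ε ε hε hε hε1
  refine ⟨1 / η ^ 2, by positivity, fun A => ?_⟩
  obtain ⟨D₁, h1⟩ := deg2 A (A + 1) (A + 2) ε hε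
  obtain ⟨Y₀, h2⟩ := reg2_cl η hη
  obtain ⟨C, hC, hrat⟩ := ratio_log
  have hl : Tendsto (fun Y : ℕ => Real.log Y) atTop atTop :=
    Real.tendsto_log_atTop.comp tendsto_natCast_atTop_atTop
  obtain ⟨D₂, h3⟩ := eventually_atTop.1 ((log_pow_rpow 2 (1 / 2) (by norm_num)).and
    ((log_pow_rpow (A + 1) (η / 2) (by positivity)).and ((hl.eventually_ge_atTop (max 3 (max (2 * C) (max (2 * A₀) (4 / η ^ 2))))).and
    (eventually_ge_atTop (max Y₀ 4)))))
  refine ⟨max D₁ D₂, fun D Y hD hDY hlY => ?_⟩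
  obtain ⟨b1, b2, b3, b4⟩ := h3 D ((le_max_right _ _).trans hD)
  have hlog3 : 3 ≤ Real.log (D : ℝ) := (le_max_left _ _).trans b3
  have hlogC : 2 * C ≤ Real.log (D : ℝ) := ((le_max_left _ _).trans (le_max_right _ _)).trans b3
  have hlogA : 2 * A₀ ≤ Real.log (D : ℝ) :=
    ((le_max_left _ _).trans ((le_max_right _ _).trans (le_max_right _ _))).trans b3
  have hlogη : 4 / η ^ 2 ≤ Real.log (D : ℝ) :=
    ((le_max_right _ _).trans ((le_max_right _ _).trans (le_max_right _ _))).trans b3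
  have hDY₀ : Y₀ ≤ D := (le_max_left _ _).trans b4
  have hD4 : 4 ≤ D := (le_max_right _ _).trans b4
  have hDr : (4 : ℝ) ≤ D := by exact_mod_cast hD4
  have hD0 : (0 : ℝ) < D := by linarith
  have hDYr : (D : ℝ) ≤ Y := by
    refine le_trans ?_ hDY
    calc (D : ℝ) = (D : ℝ) ^ (1 : ℝ) := (Real.rpow_one _).symm
      _ ≤ (D : ℝ) ^ (1 + ε) := Real.rpow_le_rpow_of_exponent_le (by linarith) (by linarith)
  have hDYn : D ≤ Y := by exact_mod_cast hDYr
  have hY0 : (0 : ℝ) < Y := by linarith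
  have hL0 : 0 < Real.log (D : ℝ) := by linarith
  have hF : Real.log (D * Y : ℝ) ≤ Real.log D ^ (A + 2) := by
    rw [Real.log_mul (by linarith) (by linarith)]
    have e1 : Real.log (D : ℝ) ^ A * 1 ≤ Real.log (D : ℝ) ^ A * Real.log D :=
      mul_le_mul_of_nonneg_left (by linarith) (by positivity)
    have e2 : Real.log (D : ℝ) ≤ Real.log (D : ℝ) ^ (A + 1) := le_self_pow₀ (by linarith) (by omega)
    have e3 : Real.log (D : ℝ) ^ (A + 2) = Real.log (D : ℝ) ^ (A + 1) * Real.log D := by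
      rw [show A + 2 = (A + 1) + 1 by ring, pow_succ]
    have e4 : Real.log (D : ℝ) ^ (A + 1) = Real.log (D : ℝ) ^ A * Real.log D := pow_succ _ _
    have e5 : 0 < Real.log (D : ℝ) ^ (A + 1) := by positivity
    nlinarith
  obtain ⟨B, hB1, hB2, hB3⟩ := h1 D Y ((le_max_left _ _).trans hD) hDY hF
  refine ⟨B, hB1, hB2, fun d hd h2d hdB K hK hKA => ?_⟩
  obtain ⟨r1, r2, r3, r4⟩ := hB3 d hd h2d hdB
  have hd1 := (mem_Icc.1 hd).1
  have hdD := (mem_Icc.1 hd).2
  have h2dr : (D : ℝ) < 2 * d := by exact_mod_cast h2d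
  have hdDr : (d : ℝ) ≤ D := by exact_mod_cast hdD
  have hd2 : 2 ≤ d := by omega
  have hφ0 : (0 : ℝ) < d.totient := by exact_mod_cast Nat.totient_pos.2 (by omega)
  -- the size of the totient
  have hφ : Real.log (D : ℝ) / 2 ≤ Real.log (d.totient : ℝ) := by
    have e1 := hrat d (Real.log D) (by omega) hlog3 (Real.log_le_log (by linarith) hdDr)
    rw [div_le_iff₀ hφ0] at e1
    have e2 : Real.log (Real.log (D : ℝ)) ≤ Real.log D := by
      have := Real.log_le_sub_one_of_pos hL0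
      linarith
    have e3 : (d : ℝ) ≤ C * Real.log D * d.totient := by
      refine e1.trans ?_
      gcongr
    have e4 : (D : ℝ) ≤ Real.log D ^ 2 * d.totient := by
      have f1 : 2 * C * Real.log (D : ℝ) * d.totient ≤ Real.log D * Real.log D * d.totient := by gcongr
      nlinarith
    have e5 : (D : ℝ) ≤ (D : ℝ) ^ ((1 : ℝ) / 2) * d.totient := e4.trans (mul_le_mul_of_nonneg_right b1 hφ0.le)
    have e6 : (D : ℝ) ^ ((1 : ℝ) / 2) ≤ d.totient := by
      have f1 : (D : ℝ) ^ ((1 : ℝ) / 2) * (D : ℝ) ^ ((1 : ℝ) / 2) = D := by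
        rw [← Real.rpow_add hD0]
        norm_num
      have f2 : (D : ℝ) ^ ((1 : ℝ) / 2) * (D : ℝ) ^ ((1 : ℝ) / 2) ≤ (D : ℝ) ^ ((1 : ℝ) / 2) * d.totient := by
        rw [f1]
        exact e5
      exact le_of_mul_le_mul_left f2 (by positivity)
    have e7 := Real.log_le_log (by positivity) e6
    rw [Real.log_rpow hD0] at e7
    linarith
  have hlφ0 : 0 < Real.log (d.totient : ℝ) := by linarith
  set δ : ℝ := refv d Y / Y with hδ
  have hμ0 : 0 < (K : ℝ) * δ := lt_of_lt_of_le (by positivity) hK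
  refine ⟨hlφ0, hμ0, ?_⟩
  have hK0 : 0 < (K : ℝ) := by
    rcases Nat.eq_zero_or_pos K with h | h
    · rw [h, Nat.cast_zero, zero_mul] at hμ0
      exact absurd hμ0 (lt_irrefl _)
    · exact_mod_cast h
  have hδ0 : 0 < δ := by
    by_contra h
    have : (K : ℝ) * δ ≤ 0 := mul_nonpos_of_nonneg_of_nonpos hK0.le (not_lt.1 h)
    linarith
  have hLA1 : (1 : ℝ) ≤ Real.log (D : ℝ) ^ A := one_le_pow₀ (by linarith)
  -- the density is at most 2
  have hδ2 : δ ≤ 2 := by
    have e1 := (abs_le.1 (r4 1 (le_refl 1) hd1 (Nat.coprime_one_left d))).1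
    have e2 : (cnt d Y 1 : ℝ) ≤ Y := by
      unfold cnt
      have := card_filter_le (Icc 1 Y) (fun s => (1 + s * d).Prime)
      rw [Nat.card_Icc, Nat.add_sub_cancel] at this
      exact_mod_cast this
    have e3 : 1 / Real.log (D : ℝ) ^ (A + 1) ≤ 1 / 2 := by
      apply one_div_le_one_div_of_le (by norm_num)
      have : Real.log (D : ℝ) ≤ Real.log (D : ℝ) ^ (A + 1) := le_self_pow₀ (by linarith) (by omega)
      linarith
    have e4 : 0 ≤ refv d Y := by
      have : refv d Y = δ * Y := by rw [hδ]; field_simp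
      rw [this]
      positivity
    have e5 := mul_le_mul_of_nonneg_right e3 e4
    rw [hδ, div_le_iff₀ hY0]
    linarith
  set v : ℝ := Real.sqrt (Real.log d.totient / (K * δ)) with hv
  have hv2 : v ^ 2 = Real.log d.totient / (K * δ) := Real.sq_sqrt (by positivity)
  have hv0 : 0 < v := Real.sqrt_pos.2 (by positivity)
  have hvη : v ≤ η := by
    apply le_of_sq_le_sq _ hη.le
    rw [hv2, div_le_iff₀ hμ0]
    rw [one_div, inv_mul_le_iff₀ (by positivity)] at hK
    exact hK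
  have hη₁ : 1 / Real.log (D : ℝ) ^ (A + 1) ≤ η * v := by
    apply le_of_sq_le_sq _ (by positivity)
    rw [mul_pow, hv2, div_pow, one_pow, ← mul_div_assoc, div_le_div_iff₀ (by positivity) hμ0, one_mul]
    have e1 : (K : ℝ) * δ ≤ 2 * Real.log D ^ A := by nlinarith
    refine e1.trans ?_
    have e2 : (4 : ℝ) ≤ η ^ 2 * Real.log D := by
      rw [div_le_iff₀ (by positivity)] at hlogη
      linarith
    have e3 : (Real.log (D : ℝ) ^ (A + 1)) ^ 2 = Real.log D ^ A * (Real.log D ^ A * Real.log D ^ 2) := by ring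
    rw [e3]
    have e4 : 1 ≤ Real.log (D : ℝ) ^ A * Real.log D ^ 2 := by
      have : (1 : ℝ) ≤ Real.log D ^ 2 := one_le_pow₀ (by linarith)
      nlinarith
    have e5 : (2 : ℝ) ≤ η ^ 2 * Real.log d.totient := by nlinarith [sq_nonneg η]
    calc 2 * Real.log (D : ℝ) ^ A = 2 * (Real.log (D : ℝ) ^ A * 1) := by ring
      _ ≤ (η ^ 2 * Real.log d.totient) * (Real.log (D : ℝ) ^ A * (Real.log D ^ A * Real.log D ^ 2)) := by
          apply mul_le_mul e5 _ (by positivity) (by positivity)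
          exact mul_le_mul_of_nonneg_left e4 (by positivity)
  have hreg := h2 d Y hd2 (hDY₀.trans hDYn) (hdD.trans hDYn) (1 / Real.log D ^ (A + 1)) r2 r4
  have hcl : (Cl d).card = d.totient := card_Cl d hd1
  have hkA : (K : ℝ) + 1 ≤ Real.exp (η * Real.log d.totient) := by
    have e1 : (D : ℝ) ^ (η / 2) ≤ Real.exp (η * Real.log d.totient) := by
      rw [Real.rpow_def_of_pos hD0]
      apply Real.exp_le_exp.2
      nlinarith
    refine le_trans ?_ (b2.trans e1)
    rw [pow_succ]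
    nlinarith
  have hres := hlaw (Real.log d.totient) v δ (1 / Real.log D ^ (A + 1)) (Icc 1 Y) (Cl d)
    (fun a s => (a + s * d).Prime) K (by linarith) hv0 hvη hδ0 (by positivity) hη₁ hreg (by
      rw [hcl, Real.exp_log hφ0]) (by
      rw [hv2]
      field_simp) hkA
  rw [Nat.card_Icc, Nat.add_sub_cancel] at hres
  exact hres

end Pool.Agent.Q145.MD
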