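import Pool.Agent.Q145.LD.Pot

set_option autoImplicit false
set_option maxHeartbeats 4000000

/-! # Exponential weights, precise degrees -/

namespace Pool.Agent.Q145.MD

open Finset Filter
open Pool.Agent.Q145.RA (seqs card_seqs card_filter_inst)
open Pool.Agent.Q145.LD (hit Z stp cc Z_stp Z_pos cc_bds sum_cc inv_le)

open scoped Classical

variable {α β : Type}

/-- relations with precise degrees `δ |S| (1 ± η₁)` and few common neighbours -/
structure Reg2 (η₁ η δ : ℝ) (S : Finset β) (V : Finset α) (R : α → β → Prop) : Prop where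
  lo : ∀ n ∈ V, (1 - η₁) * δ * S.card ≤ ((S.filter (fun a => R n a)).card : ℝ)
  hi : ∀ n ∈ V, ((S.filter (fun a => R n a)).card : ℝ) ≤ (1 + η₁) * δ * S.card
  two : ∀ n ∈ V, ∀ m ∈ V, n ≠ m → ((S.filter (fun a => R n a ∧ R m a)).card : ℝ) ≤ η * δ * S.card

/-- the second moment of the weight hit -/
theorem sum_cc_sq (η₁ η δ lam Wm : ℝ) (_hη₁ : 0 ≤ η₁) (hη : 0 ≤ η) (hδ : 0 ≤ δ) (hl : 0 < lam) (R : α → β → Prop) (S : Finset β)
    (W : Finset α) (hR : Reg2 η₁ η δ S W R) (h : α → ℕ) (hWm : ∀ n ∈ W, lam ^ h n ≤ Wm) :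
    ∑ a ∈ S, (cc lam R W h a) ^ 2 ≤ (Wm * Z lam W h * ((1 + η₁) * δ) + (Z lam W h) ^ 2 * (η * δ)) * S.card := by
  have h1 : ∀ a ∈ S, (cc lam R W h a) ^ 2 =
      ∑ n ∈ W, ∑ m ∈ W, if R n a ∧ R m a then lam ^ h n * lam ^ h m else 0 := by
    intro a _
    unfold cc
    rw [sq, sum_mul_sum]
    apply sum_congr rfl
    intro n _
    apply sum_congr rfl
    intro m _
    by_cases h1 : R n a <;> by_cases h2 : R m a <;> simp [h1, h2]
  rw [sum_congr rfl h1, sum_comm]
  have h2 : ∀ n ∈ W, ∑ a ∈ S, ∑ m ∈ W, (if R n a ∧ R m a then lam ^ h n * lam ^ h m else 0) ≤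
      lam ^ h n * (Wm * ((1 + η₁) * δ * S.card)) + lam ^ h n * (Z lam W h * (η * δ * S.card)) := by
    intro n hn
    rw [sum_comm]
    have h3 : ∀ m ∈ W, ∑ a ∈ S, (if R n a ∧ R m a then lam ^ h n * lam ^ h m else 0) ≤
        (if n = m then lam ^ h n * (Wm * ((1 + η₁) * δ * S.card)) else 0) +
        lam ^ h n * (lam ^ h m * (η * δ * S.card)) := by
      intro m hm
      have h4 : ∑ a ∈ S, (if R n a ∧ R m a then lam ^ h n * lam ^ h m else 0) =
          lam ^ h n * lam ^ h m * ((S.filter (fun a => R n a ∧ R m a)).card : ℝ) := by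
        rw [← sum_filter, sum_const, nsmul_eq_mul, mul_comm]
      rw [h4]
      have hwn : 0 < lam ^ h n := pow_pos hl _
      have hwm : 0 < lam ^ h m := pow_pos hl _
      split_ifs with hnm
      · subst hnm
        have h5 : ((S.filter (fun a => R n a ∧ R n a)).card : ℝ) ≤ (1 + η₁) * δ * S.card := by
          refine le_trans ?_ (hR.hi n hn)
          have : (S.filter (fun a => R n a ∧ R n a)).card ≤ (S.filter (fun a => R n a)).card := by
            apply card_le_card
            intro a ha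
            obtain ⟨h6, h7⟩ := mem_filter.1 ha
            exact mem_filter.2 ⟨h6, h7.1⟩
          exact_mod_cast this
        have h6 : lam ^ h n * lam ^ h n * ((S.filter (fun a => R n a ∧ R n a)).card : ℝ) ≤
            lam ^ h n * (Wm * ((1 + η₁) * δ * S.card)) := by
          rw [mul_assoc]
          apply mul_le_mul_of_nonneg_left _ hwn.le
          exact mul_le_mul (hWm n hn) h5 (Nat.cast_nonneg _) (hwn.le.trans (hWm n hn))
        have h7 : 0 ≤ lam ^ h n * (lam ^ h n * (η * δ * S.card)) := by positivity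
        linarith
      · have h5 : ((S.filter (fun a => R n a ∧ R m a)).card : ℝ) ≤ η * δ * S.card := hR.two n hn m hm hnm
        rw [zero_add, mul_assoc]
        apply mul_le_mul_of_nonneg_left _ hwn.le
        exact mul_le_mul_of_nonneg_left h5 hwm.le
    refine (sum_le_sum h3).trans ?_
    rw [sum_add_distrib, sum_ite_eq W n, if_pos hn, ← mul_sum, ← sum_mul]
    exact le_refl _
  refine (sum_le_sum h2).trans (le_of_eq ?_)
  rw [sum_add_distrib, ← sum_mul, ← sum_mul]
  unfold Z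
  ring

/-- **One step of the potential.** -/
theorem step_pot (η₁ η δ lam Wm M : ℝ) (hη₁ : 0 ≤ η₁) (hη₁1 : η₁ ≤ 1) (hη : 0 ≤ η) (hδ : 0 ≤ δ) (hl : 0 < lam) (hM : 0 < M)
    (R : α → β → Prop) (S : Finset β) (W : Finset α) (hR : Reg2 η₁ η δ S W R) (hW : W.Nonempty) (h : α → ℕ)
    (hWm : ∀ n ∈ W, lam ^ h n ≤ Wm) (hZ : M * Wm ≤ Z lam W h) :
    ∑ a ∈ S, 1 / Z lam W (stp R h a) ≤
      S.card * Real.exp (δ * (-(lam - 1) + |lam - 1| * η₁ + (lam - 1) ^ 2 / min 1 lam * (2 / M + η))) / Z lam W h := by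
  set z := Z lam W h with hz
  have hz0 : 0 < z := Z_pos lam hl W hW h
  set C : ℝ := (lam - 1) ^ 2 / min 1 lam with hC
  have hm : 0 < min 1 lam := lt_min one_pos hl
  have hC0 : 0 ≤ C := by positivity
  have h1 : ∀ a ∈ S, 1 / Z lam W (stp R h a) ≤
      1 / z * (1 - (lam - 1) * (cc lam R W h a / z) + C * (cc lam R W h a / z) ^ 2) := by
    intro a _
    obtain ⟨c0, c1⟩ := cc_bds lam hl R W h a
    have h2 : Z lam W (stp R h a) = z * (1 + (lam - 1) * (cc lam R W h a / z)) := by
      rw [Z_stp, ← hz]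
      field_simp
    rw [h2, one_div, mul_inv, ← one_div, ← one_div]
    apply mul_le_mul_of_nonneg_left _ (by positivity)
    exact inv_le lam _ hl (by positivity) ((div_le_one hz0).2 c1)
  have hS0 : (0 : ℝ) ≤ S.card := Nat.cast_nonneg _
  -- the first moment
  have m0 : ∑ a ∈ S, cc lam R W h a = ∑ n ∈ W, lam ^ h n * ((S.filter (fun a => R n a)).card : ℝ) := sum_cc lam R S W h
  have m1 : (1 - η₁) * δ * S.card * z ≤ ∑ a ∈ S, cc lam R W h a := by
    rw [m0, hz]
    unfold Z
    rw [mul_sum]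
    apply sum_le_sum
    intro n hn
    rw [mul_comm]
    exact mul_le_mul_of_nonneg_left (hR.lo n hn) (pow_pos hl _).le
  have m2 : ∑ a ∈ S, cc lam R W h a ≤ (1 + η₁) * δ * S.card * z := by
    rw [m0, hz]
    unfold Z
    rw [mul_sum]
    apply sum_le_sum
    intro n hn
    rw [mul_comm]
    apply mul_le_mul_of_nonneg_right _ (pow_pos hl _).le
    exact hR.hi n hn
  have m3 := sum_cc_sq η₁ η δ lam Wm hη₁ hη hδ hl R S W hR h hWm
  rw [← hz] at m3
  set s1 : ℝ := (∑ a ∈ S, cc lam R W h a) / z with hs1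
  set s2 : ℝ := (∑ a ∈ S, (cc lam R W h a) ^ 2) / z ^ 2 with hs2
  have k1 : (1 - η₁) * δ * S.card ≤ s1 := by
    rw [hs1, le_div_iff₀ hz0]
    exact m1
  have k2 : s1 ≤ (1 + η₁) * δ * S.card := by
    rw [hs1, div_le_iff₀ hz0]
    exact m2
  have hWm0 : 0 ≤ Wm := by
    obtain ⟨n, hn⟩ := hW
    exact (pow_pos hl _).le.trans (hWm n hn)
  have k3 : s2 ≤ (2 / M + η) * δ * S.card := by
    rw [hs2, div_le_iff₀ (by positivity)]
    refine m3.trans ?_
    have e1 : Wm ≤ z / M := by
      rw [le_div_iff₀ hM]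
      linarith
    have e2 : Wm * z * ((1 + η₁) * δ) ≤ 2 / M * δ * z ^ 2 := by
      calc Wm * z * ((1 + η₁) * δ) ≤ z / M * z * (2 * δ) := by
            apply mul_le_mul
            · exact mul_le_mul_of_nonneg_right e1 hz0.le
            · apply mul_le_mul_of_nonneg_right _ hδ
              linarith
            · positivity
            · positivity
        _ = 2 / M * δ * z ^ 2 := by ring
    calc (Wm * z * ((1 + η₁) * δ) + z ^ 2 * (η * δ)) * S.card ≤ (2 / M * δ * z ^ 2 + z ^ 2 * (η * δ)) * S.card := by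
          apply mul_le_mul_of_nonneg_right _ hS0
          linarith
      _ = (2 / M + η) * δ * S.card * z ^ 2 := by ring
  have k4 : ∑ a ∈ S, 1 / z * (1 - (lam - 1) * (cc lam R W h a / z) + C * (cc lam R W h a / z) ^ 2) =
      1 / z * (S.card - (lam - 1) * s1 + C * s2) := by
    rw [← mul_sum, sum_add_distrib, sum_sub_distrib, sum_const, nsmul_eq_mul, mul_one, ← mul_sum, ← mul_sum, hs1, hs2,
      sum_div, sum_div]
    congr 3
    apply sum_congr rfl
    intro a _
    rw [div_pow]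
  refine (sum_le_sum h1).trans ?_
  rw [k4]
  have k5 : -((lam - 1) * s1) ≤ (-(lam - 1) + |lam - 1| * η₁) * δ * S.card := by
    have e1 : |s1 - δ * S.card| ≤ η₁ * (δ * S.card) := by
      rw [abs_le]
      constructor <;> linarith
    have e2 : -((lam - 1) * s1) = -(lam - 1) * (δ * S.card) + (-(lam - 1) * (s1 - δ * S.card)) := by ring
    have e3 : -(lam - 1) * (s1 - δ * S.card) ≤ |lam - 1| * (η₁ * (δ * S.card)) := by
      calc -(lam - 1) * (s1 - δ * S.card) ≤ |-(lam - 1) * (s1 - δ * S.card)| := le_abs_self _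
        _ = |lam - 1| * |s1 - δ * S.card| := by rw [abs_mul, abs_neg]
        _ ≤ |lam - 1| * (η₁ * (δ * S.card)) := mul_le_mul_of_nonneg_left e1 (abs_nonneg _)
    rw [e2]
    linarith
  have k6 : C * s2 ≤ C * ((2 / M + η) * δ * S.card) := mul_le_mul_of_nonneg_left k3 hC0
  set ρ : ℝ := δ * (-(lam - 1) + |lam - 1| * η₁ + C * (2 / M + η)) with hρ
  have k7 : (S.card : ℝ) - (lam - 1) * s1 + C * s2 ≤ S.card * (1 + ρ) := by
    have : (S.card : ℝ) * (1 + ρ) = S.card + (-(lam - 1) + |lam - 1| * η₁) * δ * S.card + C * ((2 / M + η) * δ * S.card) := by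
      rw [hρ]
      ring
    rw [this]
    linarith
  calc 1 / z * ((S.card : ℝ) - (lam - 1) * s1 + C * s2) ≤ 1 / z * (S.card * (1 + ρ)) :=
        mul_le_mul_of_nonneg_left k7 (by positivity)
    _ ≤ 1 / z * (S.card * Real.exp ρ) := by
        apply mul_le_mul_of_nonneg_left _ (by positivity)
        apply mul_le_mul_of_nonneg_left _ hS0
        linarith [Real.add_one_le_exp ρ]
    _ = S.card * Real.exp ρ / z := by ring


end Pool.Agent.Q145.MD
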