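import Pool.Agent.Q145.RA.MultDeg2
import Pool.Agent.Q145.UM.Deg

set_option autoImplicit false
set_option maxHeartbeats 4000000

/-! # Degrees for almost all moduli, with precision a power of the logarithm -/

namespace Pool.Agent.Q145.MD

open Finset Filter
open Pool.Agent.H442R2.KF (piAP piN Er bv)
open Pool.Agent.Q145.RA (cnt piAP_le cnt_le pnt badM)

open scoped Classical

theorem card_bad2 (A B : ℕ) (ε : ℝ) (hε : 0 < ε) : ∃ D₀ : ℕ, ∀ D y : ℕ, D₀ ≤ D →
    (D : ℝ) ^ (2 + ε) ≤ y → ((badM (1 / (64 * Real.log D ^ B)) D y).card : ℝ) ≤ D / Real.log D ^ A := by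
  have hδ : 1 / (2 + ε) < 1 / 2 := one_div_lt_one_div_of_lt (by norm_num) (by linarith)
  obtain ⟨C, hC, h⟩ := bv (1 / (2 + ε)) hδ (A + B + 2)
  have hl : Tendsto (fun Y : ℕ => Real.log Y) atTop atTop :=
    Real.tendsto_log_atTop.comp tendsto_natCast_atTop_atTop
  obtain ⟨D₀, h0⟩ := eventually_atTop.1 (hl.eventually_ge_atTop (64 * C))
  refine ⟨max D₀ 3, fun D y hD hy => ?_⟩
  have hD3 : 3 ≤ D := (le_max_right _ _).trans hD
  have hDr : (3 : ℝ) ≤ D := by exact_mod_cast hD3
  have hDy : (D : ℝ) ≤ y := by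
    refine le_trans ?_ hy
    calc (D : ℝ) = (D : ℝ) ^ (1 : ℝ) := (Real.rpow_one _).symm
      _ ≤ (D : ℝ) ^ (2 + ε) := Real.rpow_le_rpow_of_exponent_le (by linarith) (by linarith)
  have hy3 : 3 ≤ y := by
    have : (3 : ℝ) ≤ y := hDr.trans hDy
    exact_mod_cast this
  have hly : 0 < Real.log (y : ℝ) := Real.log_pos (by linarith)
  have hlD := h0 D ((le_max_left _ _).trans hD)
  have hlDy : Real.log (D : ℝ) ≤ Real.log y := Real.log_le_log (by linarith) hDy
  have hlD0 : 0 < Real.log (D : ℝ) := Real.log_pos (by linarith)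
  set η : ℝ := 1 / (64 * Real.log D ^ B) with hη
  have hη0 : 0 < η := by positivity
  set Bs := badM η D y with hBs
  have hw : ∀ d ∈ Bs, ∃ a : ℕ, a.Coprime d ∧ η * (y / (d * Real.log y)) < |Er y d a| := fun d hd => (mem_filter.1 hd).2
  choose! w hw1 hw2 using hw
  have h1 := h y hy3 (fun d => if d ∈ Bs then w d else 1) (by
    intro d hd
    show Nat.Coprime (if d ∈ Bs then w d else 1) d
    split_ifs with h1
    · exact hw1 d h1
    · exact Nat.coprime_one_left d)
  have hsub : Bs ⊆ Icc 1 ⌊(y : ℝ) ^ (1 / (2 + ε))⌋₊ := by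
    intro d hd
    have h2 := mem_Icc.1 (mem_filter.1 hd).1
    refine mem_Icc.2 ⟨h2.1, Nat.le_floor ?_⟩
    have h3 : (d : ℝ) ≤ D := by exact_mod_cast h2.2
    refine h3.trans ?_
    have h4 : (D : ℝ) = ((D : ℝ) ^ (2 + ε)) ^ (1 / (2 + ε)) := by
      rw [← Real.rpow_mul (by linarith), mul_one_div, div_self (by linarith), Real.rpow_one]
    rw [h4]
    apply Real.rpow_le_rpow (by positivity) hy
    positivity
  have h2 : ∑ d ∈ Bs, |Er y d (w d)| ≤ C * (y / Real.log y ^ (A + B + 2)) := by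
    refine le_trans ?_ h1
    calc ∑ d ∈ Bs, |Er y d (w d)| = ∑ d ∈ Bs, |Er y d (if d ∈ Bs then w d else 1)| := by
          apply sum_congr rfl
          intro d hd
          rw [if_pos hd]
      _ ≤ _ := sum_le_sum_of_subset_of_nonneg hsub (fun _ _ _ => abs_nonneg _)
  have hy0 : (0 : ℝ) < y := by linarith
  have hD0 : (0 : ℝ) < D := by linarith
  have h3 : (Bs.card : ℝ) * (η * (y / (D * Real.log y))) ≤ ∑ d ∈ Bs, |Er y d (w d)| := by
    calc (Bs.card : ℝ) * (η * (y / (D * Real.log y))) = ∑ _d ∈ Bs, η * (y / (D * Real.log y)) := by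
          rw [sum_const, nsmul_eq_mul]
      _ ≤ ∑ d ∈ Bs, |Er y d (w d)| := by
          apply sum_le_sum
          intro d hd
          refine le_trans ?_ (hw2 d hd).le
          have h4 := mem_Icc.1 (mem_filter.1 hd).1
          have h5 : (1 : ℝ) ≤ d := by exact_mod_cast h4.1
          have h6 : (d : ℝ) ≤ D := by exact_mod_cast h4.2
          gcongr
  have h4 : (Bs.card : ℝ) * (η * (y / (D * Real.log y))) ≤ C * (y / Real.log y ^ (A + B + 2)) := h3.trans h2
  have h5 : (Bs.card : ℝ) * (η * Real.log y ^ (A + B + 1)) ≤ C * D := by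
    have e1 : (Bs.card : ℝ) * (η * (y / (D * Real.log y))) * (D * Real.log y ^ (A + B + 2) / y) =
        Bs.card * (η * Real.log y ^ (A + B + 1)) := by
      rw [show A + B + 2 = (A + B + 1) + 1 by ring, pow_succ]
      field_simp
    have e2 : C * (y / Real.log y ^ (A + B + 2)) * (D * Real.log y ^ (A + B + 2) / y) = C * D := by
      field_simp
    rw [← e1, ← e2]
    exact mul_le_mul_of_nonneg_right h4 (by positivity)
  rw [le_div_iff₀ (by positivity)]
  -- the powers of the logarithms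
  have p1 : Real.log (D : ℝ) ^ A ≤ Real.log y ^ A := pow_le_pow_left₀ hlD0.le hlDy A
  have p2 : Real.log (D : ℝ) ^ B ≤ Real.log y ^ B := pow_le_pow_left₀ hlD0.le hlDy B
  have h6 : (Bs.card : ℝ) * Real.log y ^ A * (Real.log y / 64) ≤ C * D := by
    refine le_trans ?_ h5
    have e1 : (Bs.card : ℝ) * (η * Real.log y ^ (A + B + 1)) =
        (Bs.card : ℝ) * Real.log y ^ A * (Real.log y / 64) * (Real.log y ^ B / Real.log D ^ B) := by
      rw [hη, pow_add, pow_add]
      field_simp
    rw [e1]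
    have e2 : 1 ≤ Real.log y ^ B / Real.log (D : ℝ) ^ B := by
      rw [one_le_div (by positivity)]
      exact p2
    calc (Bs.card : ℝ) * Real.log y ^ A * (Real.log y / 64) =
        (Bs.card : ℝ) * Real.log y ^ A * (Real.log y / 64) * 1 := (mul_one _).symm
      _ ≤ _ := mul_le_mul_of_nonneg_left e2 (by positivity)
  have h7 : C ≤ Real.log y / 64 := by linarith
  have h8 : (Bs.card : ℝ) * Real.log y ^ A * (Real.log y / 64) ≤ D * (Real.log y / 64) := by
    refine h6.trans ?_
    rw [mul_comm]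
    exact mul_le_mul_of_nonneg_left h7 hD0.le
  have h9 : (Bs.card : ℝ) * Real.log y ^ A ≤ D := le_of_mul_le_mul_right h8 (by positivity)
  exact (mul_le_mul_of_nonneg_left p1 (Nat.cast_nonneg _)).trans h9

/-- the primes between two bounds -/
theorem piN_diff (a b : ℕ) (h : a ≤ b) : (piN a : ℝ) ≤ piN b ∧ (piN b : ℝ) ≤ piN a + (b - a) := by
  unfold piN
  constructor
  · apply Nat.cast_le.2
    apply card_le_card
    apply filter_subset_filter
    exact Icc_subset_Icc_right h
  · have h1 : (Icc 1 b).filter Nat.Prime ⊆ (Icc 1 a).filter Nat.Prime ∪ Ioc a b := by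
      intro p hp
      obtain ⟨h2, h3⟩ := mem_filter.1 hp
      have h4 := mem_Icc.1 h2
      rw [mem_union, mem_filter, mem_Icc, mem_Ioc]
      by_cases h5 : p ≤ a
      · exact Or.inl ⟨⟨h4.1, h5⟩, h3⟩
      · exact Or.inr ⟨not_le.1 h5, h4.2⟩
    have h2 := (card_le_card h1).trans (card_union_le _ _)
    rw [Nat.card_Ioc] at h2
    have h3 : (((Icc 1 b).filter Nat.Prime).card : ℝ) ≤ ((Icc 1 a).filter Nat.Prime).card + ((b - a : ℕ) : ℝ) := by
      exact_mod_cast h2
    rwa [Nat.cast_sub h] at h3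

/-- the reference value -/
noncomputable def refv (d Y : ℕ) : ℝ := (piN (d * Y) : ℝ) / d.totient

/-- the estimates at a good modulus -/
theorem deg_good2 (L η : ℝ) (hL : 0 < L) (hη : η = 1 / (64 * L)) (d Y a ym yp : ℕ) (hd : 1 ≤ d) (had : a ≤ d)
    (hym3 : 3 ≤ ym) (hym : ym ≤ d * Y) (hyp : d * (Y + 1) ≤ yp)
    (hgap1 : ((d * Y : ℕ) : ℝ) - ym ≤ 1 / (8 * L) * piN (d * Y)) (hgap2 : (yp : ℝ) - (d * Y : ℕ) ≤ 1 / (4 * L) * piN (d * Y))
    (hlm : Real.log (d * Y : ℝ) ≤ 2 * Real.log ym) (hyp8 : (yp : ℝ) ≤ 8 * (d * Y))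
    (h1 : |Er ym d a| ≤ η * (ym / (d * Real.log ym))) (h2 : |Er yp d a| ≤ η * (yp / (d * Real.log yp)))
    (h3 : 1 / 2 * ((d * Y : ℕ) / Real.log (d * Y : ℕ)) ≤ piN (d * Y)) (hM : 1 ≤ 1 / (8 * L) * refv d Y) :
    |(cnt d Y a : ℝ) - refv d Y| ≤ 1 / L * refv d Y := by
  have hdr : (1 : ℝ) ≤ d := by exact_mod_cast hd
  have hφ0 : (0 : ℝ) < d.totient := by exact_mod_cast Nat.totient_pos.2 (by omega)
  have hφd : (d.totient : ℝ) ≤ d := by exact_mod_cast Nat.totient_le d
  have hym3r : (3 : ℝ) ≤ ym := by exact_mod_cast hym3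
  have hymr : (ym : ℝ) ≤ d * Y := by exact_mod_cast hym
  have hypr : (d : ℝ) * (Y + 1) ≤ yp := by exact_mod_cast hyp
  have hY0 : (0 : ℝ) ≤ Y := Nat.cast_nonneg _
  have hdY3 : (3 : ℝ) ≤ (d : ℝ) * Y := hym3r.trans hymr
  have hYpos : (0 : ℝ) < Y := by
    by_contra h
    have h0 : (Y : ℝ) = 0 := le_antisymm (not_lt.1 h) hY0
    rw [h0, mul_zero] at hdY3
    linarith
  have hypd : (d : ℝ) * Y ≤ yp := by
    have : (d : ℝ) * Y ≤ d * (Y + 1) := by nlinarith
    linarith
  have hlm0 : 0 < Real.log (ym : ℝ) := Real.log_pos (by linarith)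
  have hl0 : 0 < Real.log (d * Y : ℝ) := Real.log_pos (by linarith)
  have hlp : Real.log (d * Y : ℝ) ≤ Real.log yp := Real.log_le_log (by linarith) hypd
  have hlp0 : 0 < Real.log (yp : ℝ) := by linarith
  have hη0 : 0 < η := by rw [hη]; positivity
  have hR : Y / (2 * Real.log (d * Y : ℝ)) ≤ refv d Y := by
    unfold refv
    rw [le_div_iff₀ hφ0]
    refine le_trans ?_ h3
    push_cast
    calc (Y : ℝ) / (2 * Real.log (d * Y : ℝ)) * d.totient ≤ Y / (2 * Real.log (d * Y : ℝ)) * d :=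
          mul_le_mul_of_nonneg_left hφd (by positivity)
      _ = 1 / 2 * (d * Y / Real.log (d * Y : ℝ)) := by ring
  have hR0 : 0 ≤ refv d Y := le_trans (by positivity) hR
  have hEm : |Er ym d a| ≤ 1 / (8 * L) * refv d Y := by
    refine h1.trans ?_
    calc η * (ym / (d * Real.log ym)) ≤ η * ((d * Y) / (d * (Real.log (d * Y : ℝ) / 2))) := by
          apply mul_le_mul_of_nonneg_left _ hη0.le
          gcongr
          linarith
      _ = 1 / (16 * L) * (Y / (2 * Real.log (d * Y : ℝ))) := by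
          rw [hη]
          field_simp
          ring
      _ ≤ 1 / (16 * L) * refv d Y := mul_le_mul_of_nonneg_left hR (by positivity)
      _ ≤ 1 / (8 * L) * refv d Y := by
          apply mul_le_mul_of_nonneg_right _ hR0
          apply one_div_le_one_div_of_le (by positivity)
          linarith
  have hEp : |Er yp d a| ≤ 1 / (4 * L) * refv d Y := by
    refine h2.trans ?_
    calc η * (yp / (d * Real.log yp)) ≤ η * ((8 * (d * Y)) / (d * Real.log (d * Y : ℝ))) := by
          apply mul_le_mul_of_nonneg_left _ hη0.le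
          gcongr
      _ = 1 / (4 * L) * (Y / (2 * Real.log (d * Y : ℝ))) := by
          rw [hη]
          field_simp
          ring
      _ ≤ 1 / (4 * L) * refv d Y := mul_le_mul_of_nonneg_left hR (by positivity)
  have e0 : 1 / L * refv d Y = 4 * (1 / (4 * L) * refv d Y) := by
    field_simp
  have e00 : 1 / (8 * L) * refv d Y = 1 / 2 * (1 / (4 * L) * refv d Y) := by
    field_simp
    ring
  rw [abs_le]
  constructor
  · have e1 : ((piAP ym d a : ℕ) : ℝ) ≤ cnt d Y a + 1 := by exact_mod_cast piAP_le d Y a ym (by omega) had hym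
    have e2 : (piAP ym d a : ℝ) = Er ym d a + piN ym / d.totient := by
      unfold Er
      ring
    have e3 := (abs_le.1 hEm).1
    have e4 : refv d Y - 1 / (8 * L) * refv d Y ≤ piN ym / d.totient := by
      have f1 := (piN_diff ym (d * Y) hym).2
      have f2 : (piN (d * Y) : ℝ) ≤ piN ym + 1 / (8 * L) * piN (d * Y) := by linarith
      have f3 := div_le_div_of_nonneg_right f2 hφ0.le
      rw [add_div, mul_div_assoc] at f3
      unfold refv
      linarith
    linarith
  · have e1 : ((cnt d Y a : ℕ) : ℝ) ≤ piAP yp d a := by exact_mod_cast cnt_le d Y a yp (by omega) had hyp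
    have e2 : (piAP yp d a : ℝ) = Er yp d a + piN yp / d.totient := by
      unfold Er
      ring
    have e3 := (abs_le.1 hEp).2
    have e4 : piN yp / d.totient ≤ refv d Y + 1 / (4 * L) * refv d Y := by
      have f0 : d * Y ≤ yp := by exact_mod_cast hypd
      have f1 := (piN_diff (d * Y) yp f0).2
      have f2 : (piN yp : ℝ) ≤ piN (d * Y) + 1 / (4 * L) * piN (d * Y) := by linarith
      have f3 := div_le_div_of_nonneg_right f2 hφ0.le
      rw [add_div, mul_div_assoc] at f3
      unfold refv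
      exact f3
    have : 0 ≤ 1 / (4 * L) * refv d Y := by positivity
    linarith

end Pool.Agent.Q145.MD
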