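import Pool.Agent.Q145.MD.Deg

set_option autoImplicit false
set_option maxHeartbeats 4000000

/-! # Degrees for almost all moduli, with precision a power of the logarithm -/

namespace Pool.Agent.Q145.MD

open Finset Filter
open Pool.Agent.H442R2.KF (piAP piN Er bv)
open Pool.Agent.Q145.RA (cnt piAP_le cnt_le pnt badM)

open scoped Classical

theorem log_pow_le (G : ℕ) (c : ℝ) (hc : 0 < c) : ∀ᶠ D : ℕ in atTop, Real.log (D : ℝ) ^ G ≤ c * D := by
  have hT : Tendsto (fun Y : ℕ => (Y : ℝ)) atTop atTop := tendsto_natCast_atTop_atTop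
  have h5 := (isLittleO_log_rpow_rpow_atTop (G : ℝ) (show (0 : ℝ) < 1 by norm_num)).bound hc
  filter_upwards [hT.eventually h5, hT.eventually_ge_atTop 1] with D h6 h7
  rw [Real.rpow_natCast, Real.rpow_one, Real.norm_of_nonneg (pow_nonneg (Real.log_nonneg h7) _),
    Real.norm_of_nonneg (by linarith)] at h6
  exact h6

theorem log_pow_rpow (G : ℕ) (e : ℝ) (he : 0 < e) : ∀ᶠ D : ℕ in atTop, Real.log (D : ℝ) ^ G ≤ (D : ℝ) ^ e := by
  have hT : Tendsto (fun Y : ℕ => (Y : ℝ)) atTop atTop := tendsto_natCast_atTop_atTop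
  have h5 := (isLittleO_log_rpow_rpow_atTop (G : ℝ) he).bound one_pos
  filter_upwards [hT.eventually h5, hT.eventually_ge_atTop 1] with D h6 h7
  rw [Real.rpow_natCast, one_mul, Real.norm_of_nonneg (pow_nonneg (Real.log_nonneg h7) _),
    Real.norm_of_nonneg (Real.rpow_nonneg (by linarith) _)] at h6
  exact h6

/-- **Almost all moduli.** -/
theorem deg2 (A B F : ℕ) (ε : ℝ) (hε : 0 < ε) : ∃ D₀ : ℕ, ∀ D Y : ℕ, D₀ ≤ D →
    (D : ℝ) ^ (1 + ε) ≤ Y → Real.log (D * Y : ℝ) ≤ Real.log D ^ F →
    ∃ Bs ⊆ Icc 1 D, (Bs.card : ℝ) ≤ D / Real.log D ^ A ∧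
    ∀ d ∈ Icc 1 D, D < 2 * d → d ∉ Bs → 1 ≤ 1 / Real.log D ^ B * refv d Y ∧
      ((d : ℝ) * Y) / (2 * d.totient * Real.log (d * Y : ℝ)) ≤ refv d Y ∧
      refv d Y ≤ 2 * (((d : ℝ) * Y) / (d.totient * Real.log (d * Y : ℝ))) ∧
      ∀ a : ℕ, 1 ≤ a → a ≤ d → a.Coprime d → |(cnt d Y a : ℝ) - refv d Y| ≤ 1 / Real.log D ^ B * refv d Y := by
  set G : ℕ := B + F + 1 with hG
  obtain ⟨D₁, h1⟩ := card_bad2 (A + G + 1) B (ε / 2) (by positivity)
  obtain ⟨y₀, h2⟩ := pnt (1 / 2) (by norm_num)
  have hl : Tendsto (fun Y : ℕ => Real.log Y) atTop atTop :=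
    Real.tendsto_log_atTop.comp tendsto_natCast_atTop_atTop
  obtain ⟨D₂, h3⟩ := eventually_atTop.1 ((log_pow_le G 1 one_pos).and ((log_pow_rpow G (ε / 2) (by positivity)).and
    ((log_pow_le (B + F) (1 / 16) (by norm_num)).and ((hl.eventually_ge_atTop 100).and (eventually_ge_atTop (max y₀ 3))))))
  refine ⟨max D₁ D₂, fun D Y hD hDY hlog => ?_⟩
  have hD₁ : D₁ ≤ D := (le_max_left _ _).trans hD
  obtain ⟨b1, b2, b3, b4, b5⟩ := h3 D ((le_max_right _ _).trans hD)
  rw [one_mul] at b1
  have hDy₀ : y₀ ≤ D := (le_max_left _ _).trans b5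
  have hD3 : 3 ≤ D := (le_max_right _ _).trans b5
  have hDr : (3 : ℝ) ≤ D := by exact_mod_cast hD3
  have hD0 : (0 : ℝ) < D := by linarith
  have hDYr : (D : ℝ) ≤ Y := by
    refine le_trans ?_ hDY
    calc (D : ℝ) = (D : ℝ) ^ (1 : ℝ) := (Real.rpow_one _).symm
      _ ≤ (D : ℝ) ^ (1 + ε) := Real.rpow_le_rpow_of_exponent_le (by linarith) (by linarith)
  have hDYn : D ≤ Y := by exact_mod_cast hDYr
  have hY0 : (0 : ℝ) < Y := by linarith
  have hL0 : 0 < Real.log (D : ℝ) := by linarith
  have hLG : 0 < Real.log (D : ℝ) ^ G := pow_pos hL0 _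
  set L : ℝ := Real.log D ^ B with hL
  have hLp : 0 < L := pow_pos hL0 _
  set h : ℕ := ⌊(D : ℝ) / Real.log D ^ G⌋₊ + 1 with hh
  have hh1 : (D : ℝ) / Real.log D ^ G < h := by
    rw [hh]
    push_cast
    exact Nat.lt_floor_add_one _
  have hh2 : (h : ℝ) ≤ 2 * (D / Real.log D ^ G) := by
    rw [hh]
    push_cast
    have := Nat.floor_le (show 0 ≤ (D : ℝ) / Real.log D ^ G by positivity)
    have e1 : 1 ≤ (D : ℝ) / Real.log D ^ G := by
      rw [one_le_div hLG]
      exact b1
    linarith
  have hLBF : (1 : ℝ) ≤ Real.log (D : ℝ) ^ (B + F) := one_le_pow₀ (by linarith)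
  have hh3 : (h : ℝ) * (50 * Real.log D ^ (B + F)) ≤ D := by
    have e1 : (h : ℝ) * (50 * Real.log D ^ (B + F)) ≤ 2 * (D / Real.log D ^ G) * (50 * Real.log D ^ (B + F)) :=
      mul_le_mul_of_nonneg_right hh2 (by positivity)
    have e2 : 2 * (D / Real.log D ^ G) * (50 * Real.log D ^ (B + F)) = D * (100 / Real.log D) := by
      rw [hG, pow_succ]
      field_simp
      ring
    have e3 : (100 : ℝ) / Real.log D ≤ 1 := by
      rw [div_le_one hL0]
      exact b4
    calc (h : ℝ) * (50 * Real.log D ^ (B + F)) ≤ D * (100 / Real.log D) := by rw [← e2]; exact e1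
      _ ≤ D * 1 := mul_le_mul_of_nonneg_left e3 hD0.le
      _ = D := mul_one _
  have hh0 : 0 < h := by omega
  have hhr0 : (0 : ℝ) < h := by exact_mod_cast hh0
  have hhD : (h : ℝ) ≤ D / 2 := by nlinarith
  have hhD2 : 2 * h ≤ D := by
    have : 2 * (h : ℝ) ≤ D := by linarith
    exact_mod_cast this
  set J₁ : ℕ := ⌈Real.log (D : ℝ) ^ G⌉₊ + 1 with hJ₁
  have hJ₁r : (J₁ : ℝ) ≤ 2 * Real.log D ^ G := by
    rw [hJ₁]
    push_cast
    have e1 := (Nat.ceil_lt_add_one hLG.le).le
    have e2 : (100 : ℝ) ≤ Real.log D ^ G := by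
      refine b4.trans ?_
      rw [hG]
      exact le_self_pow₀ (by linarith) (by omega)
    linarith
  set ym : ℕ → ℕ := fun j => j * h * Y with hym
  set yp : ℕ → ℕ := fun j => (j + 1) * h * (Y + 1) with hyp
  have hymD : ∀ j, 1 ≤ j → (D : ℝ) ^ (2 + ε / 2) ≤ ym j := by
    intro j hj
    have hjr : (1 : ℝ) ≤ j := by exact_mod_cast hj
    have e1 : (D : ℝ) ^ (2 + ε / 2) ≤ D / Real.log D ^ G * (D : ℝ) ^ (1 + ε) := by
      rw [div_mul_eq_mul_div, le_div_iff₀ hLG]
      have e2 : (D : ℝ) * (D : ℝ) ^ (1 + ε) = (D : ℝ) ^ (2 + ε / 2) * (D : ℝ) ^ (ε / 2) := by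
        rw [← Real.rpow_add hD0]
        nth_rewrite 1 [← Real.rpow_one (D : ℝ)]
        rw [← Real.rpow_add hD0]
        congr 1
        ring
      rw [e2]
      exact mul_le_mul_of_nonneg_left b2 (by positivity)
    have e3 : ((ym j : ℕ) : ℝ) = j * h * Y := by
      rw [hym]
      push_cast
      ring
    rw [e3]
    refine e1.trans ?_
    have e4 : (D : ℝ) / Real.log D ^ G ≤ j * h := by nlinarith
    exact mul_le_mul e4 hDY (by positivity) (by positivity)
  have hymp : ∀ j, ym j ≤ yp j := by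
    intro j
    simp only [hym, hyp]
    exact Nat.mul_le_mul (Nat.mul_le_mul_right _ (by omega)) (by omega)
  have hDDe : (D : ℝ) ≤ (D : ℝ) ^ (2 + ε / 2) := by
    nth_rewrite 1 [← Real.rpow_one (D : ℝ)]
    exact Real.rpow_le_rpow_of_exponent_le (by linarith) (by linarith)
  set η : ℝ := 1 / (64 * Real.log D ^ B) with hη
  -- the exceptional set
  set Bs : Finset ℕ :=
    ((Finset.range J₁).filter (fun j => 1 ≤ j)).biUnion (fun j => badM η D (ym j) ∪ badM η D (yp j)) with hBs
  refine ⟨Bs, ?_, ?_, ?_⟩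
  · rw [hBs]
    intro d hd
    obtain ⟨j, _, h5⟩ := mem_biUnion.1 hd
    rcases mem_union.1 h5 with h6 | h6
    · exact (mem_filter.1 h6).1
    · exact (mem_filter.1 h6).1
  · have hQ0 : 0 < (D : ℝ) / Real.log D ^ (A + G + 1) := by positivity
    have e1 : Bs.card ≤ ∑ j ∈ (Finset.range J₁).filter (fun j => 1 ≤ j),
          ((badM η D (ym j)).card + (badM η D (yp j)).card) :=
      card_biUnion_le.trans (sum_le_sum fun j _ => card_union_le _ _)
    have e2 : (Bs.card : ℝ) ≤ ∑ j ∈ (Finset.range J₁).filter (fun j => 1 ≤ j),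
          (((badM η D (ym j)).card : ℝ) + ((badM η D (yp j)).card : ℝ)) := by exact_mod_cast e1
    refine e2.trans ?_
    calc ∑ j ∈ (Finset.range J₁).filter (fun j => 1 ≤ j),
          (((badM η D (ym j)).card : ℝ) + ((badM η D (yp j)).card : ℝ))
          ≤ ∑ _j ∈ (Finset.range J₁).filter (fun j => 1 ≤ j), 2 * (D / Real.log D ^ (A + G + 1)) := by
            apply sum_le_sum
            intro j hj
            have hj1 := (mem_filter.1 hj).2
            have f1 := h1 D (ym j) hD₁ (hymD j hj1)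
            have f2 := h1 D (yp j) hD₁ ((hymD j hj1).trans (by exact_mod_cast hymp j))
            linarith
        _ = (((Finset.range J₁).filter (fun j => 1 ≤ j)).card : ℝ) * (2 * (D / Real.log D ^ (A + G + 1))) := by
            rw [sum_const, nsmul_eq_mul]
        _ ≤ J₁ * (2 * (D / Real.log D ^ (A + G + 1))) := by
            apply mul_le_mul_of_nonneg_right _ (by positivity)
            have := card_filter_le (Finset.range J₁) (fun j => 1 ≤ j)
            rw [card_range] at this
            exact_mod_cast this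
        _ ≤ (2 * Real.log D ^ G) * (2 * (D / Real.log D ^ (A + G + 1))) :=
            mul_le_mul_of_nonneg_right hJ₁r (by positivity)
        _ = D / Real.log D ^ A * (4 / Real.log D) := by
            rw [pow_succ, pow_add]
            field_simp
            ring
        _ ≤ D / Real.log D ^ A * 1 := by
            apply mul_le_mul_of_nonneg_left _ (by positivity)
            rw [div_le_one hL0]
            linarith
        _ = _ := mul_one _
  · intro d hd h2d hdB2
    have hd1 := (mem_Icc.1 hd).1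
    have hdD := (mem_Icc.1 hd).2
    have hdr : (1 : ℝ) ≤ d := by exact_mod_cast hd1
    have hdDr : (d : ℝ) ≤ D := by exact_mod_cast hdD
    have h2dr : (D : ℝ) < 2 * d := by exact_mod_cast h2d
    have hdY : ((d * Y : ℕ) : ℝ) = (d : ℝ) * Y := by push_cast; ring
    have hφ0 : (0 : ℝ) < d.totient := by exact_mod_cast Nat.totient_pos.2 (by omega)
    have hφd : (d.totient : ℝ) ≤ d := by exact_mod_cast Nat.totient_le d
    have hdY3 : (3 : ℝ) ≤ (d : ℝ) * Y := by nlinarith
    have hldY0 : 0 < Real.log (d * Y : ℝ) := Real.log_pos (by linarith)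
    have hldY : Real.log (d * Y : ℝ) ≤ Real.log D ^ F := by
      refine le_trans (Real.log_le_log (by linarith) ?_) hlog
      exact mul_le_mul_of_nonneg_right hdDr hY0.le
    have hy₀ : y₀ ≤ d * Y := by
      calc y₀ ≤ D := hDy₀
        _ ≤ Y := hDYn
        _ ≤ d * Y := Nat.le_mul_of_pos_left _ hd1
    have hpnt := h2 (d * Y) hy₀
    rw [hdY] at hpnt
    obtain ⟨hp1, hp2⟩ := hpnt
    have hp1' : 1 / 2 * ((d : ℝ) * Y / Real.log (d * Y : ℝ)) ≤ piN (d * Y) := by linarith
    have hR1 : ((d : ℝ) * Y) / (2 * d.totient * Real.log (d * Y : ℝ)) ≤ refv d Y := by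
      unfold refv
      rw [le_div_iff₀ hφ0]
      refine le_trans (le_of_eq ?_) hp1'
      field_simp
    have hR2 : refv d Y ≤ 2 * (((d : ℝ) * Y) / (d.totient * Real.log (d * Y : ℝ))) := by
      unfold refv
      rw [div_le_iff₀ hφ0]
      refine hp2.trans ?_
      have e1 : 2 * (((d : ℝ) * Y) / (d.totient * Real.log (d * Y : ℝ))) * d.totient =
          2 * ((d : ℝ) * Y / Real.log (d * Y : ℝ)) := by
        field_simp
      rw [e1]
      apply mul_le_mul_of_nonneg_right (by norm_num) (by positivity)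
    have hR3 : Y / (2 * Real.log D ^ F) ≤ refv d Y := by
      refine le_trans ?_ hR1
      have e1 : (Y : ℝ) / (2 * Real.log D ^ F) ≤ Y / (2 * Real.log (d * Y : ℝ)) := by gcongr
      refine e1.trans ?_
      rw [div_le_div_iff₀ (by positivity) (by positivity)]
      have : (Y : ℝ) * (2 * d.totient * Real.log (d * Y : ℝ)) ≤ Y * (2 * d * Real.log (d * Y : ℝ)) := by gcongr
      linarith
    have hR8 : 1 ≤ 1 / (8 * L) * refv d Y := by
      have e1 : 1 / (8 * L) * (Y / (2 * Real.log D ^ F)) ≤ 1 / (8 * L) * refv d Y :=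
        mul_le_mul_of_nonneg_left hR3 (by positivity)
      refine le_trans ?_ e1
      rw [div_mul_div_comm, one_mul, one_le_div (by positivity)]
      calc 8 * L * (2 * Real.log D ^ F) = 16 * Real.log D ^ (B + F) := by
            rw [hL, pow_add]
            ring
        _ ≤ D := by linarith
        _ ≤ Y := hDYr
    have hRp : 0 ≤ refv d Y := by
      unfold refv
      positivity
    have hR9 : 1 ≤ 1 / L * refv d Y := by
      refine hR8.trans ?_
      apply mul_le_mul_of_nonneg_right _ hRp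
      apply one_div_le_one_div_of_le hLp
      linarith
    refine ⟨hR9, hR1, hR2, fun a _ha0 had hcop => ?_⟩
    -- the grid
    set j : ℕ := (d - 1) / h with hj
    have hj1 : 1 ≤ j := by
      rw [hj, Nat.le_div_iff_mul_le hh0]
      omega
    have hjh : j * h ≤ d - 1 := Nat.div_mul_le_self _ _
    have hjh' : d - 1 < (j + 1) * h := by
      have := Nat.lt_div_mul_add hh0 (a := d - 1)
      calc d - 1 < (d - 1) / h * h + h := this
        _ = (j + 1) * h := by rw [hj]; ring
    have hj2 : j < J₁ := by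
      have e1 : (j : ℝ) * h < D := by
        have : ((j * h : ℕ) : ℝ) < D := by
          have : j * h < D := by omega
          exact_mod_cast this
        push_cast at this
        exact this
      have e2 : (j : ℝ) * (D / Real.log D ^ G) < D :=
        lt_of_le_of_lt (mul_le_mul_of_nonneg_left hh1.le (Nat.cast_nonneg _)) e1
      have e3 : (j : ℝ) < Real.log D ^ G := by
        rw [← mul_div_assoc, div_lt_iff₀ hLG] at e2
        have e4 : (D : ℝ) * j < D * Real.log D ^ G := by linarith
        exact lt_of_mul_lt_mul_left e4 hD0.le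
      have e4 : (j : ℝ) < J₁ := by
        rw [hJ₁]
        push_cast
        have := Nat.le_ceil (Real.log (D : ℝ) ^ G)
        linarith
      exact_mod_cast e4
    have hgood : d ∉ badM η D (ym j) ∧ d ∉ badM η D (yp j) := by
      constructor
      · intro h5
        exact hdB2 (mem_biUnion.2 ⟨j, mem_filter.2 ⟨mem_range.2 hj2, hj1⟩, mem_union_left _ h5⟩)
      · intro h5
        exact hdB2 (mem_biUnion.2 ⟨j, mem_filter.2 ⟨mem_range.2 hj2, hj1⟩, mem_union_right _ h5⟩)
    have hEm : |Er (ym j) d a| ≤ η * (ym j / (d * Real.log (ym j))) := by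
      by_contra h5
      exact hgood.1 (mem_filter.2 ⟨hd, a, hcop, not_le.1 h5⟩)
    have hEp : |Er (yp j) d a| ≤ η * (yp j / (d * Real.log (yp j))) := by
      by_contra h5
      exact hgood.2 (mem_filter.2 ⟨hd, a, hcop, not_le.1 h5⟩)
    have hjhr : (j : ℝ) * h ≤ d := by
      have : j * h ≤ d := by omega
      exact_mod_cast this
    have hjhr' : (d : ℝ) ≤ (j + 1) * h := by
      have : d ≤ (j + 1) * h := by omega
      exact_mod_cast this
    have eym : ((ym j : ℕ) : ℝ) = j * h * Y := by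
      rw [hym]
      push_cast
      ring
    have eyp : ((yp j : ℕ) : ℝ) = (j + 1) * h * (Y + 1) := by
      rw [hyp]
      push_cast
      ring
    have hh1r : (1 : ℝ) ≤ h := by exact_mod_cast hh0
    have hjr1 : (1 : ℝ) ≤ j := by exact_mod_cast hj1
    -- the size of the gap
    have hpi : (12 : ℝ) * L * (h * Y) ≤ piN (d * Y) := by
      refine le_trans ?_ hp1'
      have e1 : (D : ℝ) * Y / 4 / Real.log D ^ F ≤ 1 / 2 * ((d : ℝ) * Y / Real.log (d * Y : ℝ)) := by
        have f1 : (D : ℝ) * Y / 4 / Real.log D ^ F ≤ (D : ℝ) * Y / 4 / Real.log (d * Y : ℝ) := by gcongr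
        refine f1.trans ?_
        rw [← mul_div_assoc]
        apply div_le_div_of_nonneg_right _ hldY0.le
        nlinarith
      refine le_trans ?_ e1
      rw [le_div_iff₀ (by positivity)]
      calc 12 * L * (h * Y) * Real.log D ^ F = 12 * (h * Real.log D ^ (B + F)) * Y := by
            rw [hL, pow_add]
            ring
        _ ≤ D / 4 * Y := by
            apply mul_le_mul_of_nonneg_right _ hY0.le
            linarith
        _ = D * Y / 4 := by ring
    have hhY : (h : ℝ) * Y ≤ 1 / (12 * L) * piN (d * Y) := by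
      rw [one_div, inv_mul_eq_div, le_div_iff₀ (by positivity)]
      linarith
    have hhY0 : 0 ≤ (h : ℝ) * Y := by positivity
    apply deg_good2 L η hLp hη d Y a (ym j) (yp j) hd1 had
    · have : (3 : ℝ) ≤ ym j := hDr.trans (hDDe.trans (hymD j hj1))
      exact_mod_cast this
    · simp only [hym]
      exact Nat.mul_le_mul_right _ (by omega)
    · simp only [hyp]
      exact Nat.mul_le_mul_right _ (by omega)
    · rw [eym, hdY]
      have e1 : (d : ℝ) * Y - j * h * Y ≤ h * Y := by
        have : (d : ℝ) - j * h ≤ h := by linarith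
        nlinarith
      refine e1.trans (hhY.trans ?_)
      apply mul_le_mul_of_nonneg_right _ (Nat.cast_nonneg _)
      apply one_div_le_one_div_of_le (by positivity)
      linarith
    · rw [eyp, hdY]
      have e1 : ((j : ℝ) + 1) * h * (Y + 1) - d * Y ≤ 3 * (h * Y) := by
        have f1 : ((j : ℝ) + 1) * h * (Y + 1) - d * Y = ((j + 1) * h - d) * (Y + 1) + d := by ring
        have f2 : ((j : ℝ) + 1) * h - d ≤ h := by linarith
        have f3 : (((j : ℝ) + 1) * h - d) * (Y + 1) ≤ h * (Y + 1) := mul_le_mul_of_nonneg_right f2 (by linarith)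
        have f4 : (d : ℝ) ≤ h * Y := by nlinarith
        have f5 : (h : ℝ) ≤ h * Y := by nlinarith
        rw [f1]
        linarith
      refine e1.trans ?_
      calc 3 * ((h : ℝ) * Y) ≤ 3 * (1 / (12 * L) * piN (d * Y)) := by linarith
        _ = 1 / (4 * L) * piN (d * Y) := by
            rw [show (1 : ℝ) / (4 * L) = 3 * (1 / (12 * L)) by
              rw [mul_one_div, div_eq_div_iff (by positivity) (by positivity)]
              ring]
            ring
    · have e1 : (d : ℝ) * Y ≤ (ym j : ℝ) ^ 2 := by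
        rw [eym]
        have f1 : (Y : ℝ) ≤ j * h * Y := by
          have : (1 : ℝ) ≤ j * h := by nlinarith
          nlinarith
        have f2 : (d : ℝ) ≤ j * h * Y := (hdDr.trans hDYr).trans f1
        calc (d : ℝ) * Y ≤ (j * h * Y) * (j * h * Y) := mul_le_mul f2 f1 hY0.le (by positivity)
          _ = _ := by ring
      have e2 := Real.log_le_log (by linarith) e1
      rwa [Real.log_pow, Nat.cast_ofNat] at e2
    · rw [eyp]
      have f1 : ((j : ℝ) + 1) * h ≤ 3 * d := by linarith
      calc ((j : ℝ) + 1) * h * (Y + 1) ≤ 3 * d * (2 * Y) := mul_le_mul f1 (by linarith) (by linarith) (by linarith)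
        _ ≤ 8 * (d * Y) := by nlinarith
    · exact hEm
    · exact hEp
    · rw [hdY]
      exact hp1'
    · exact hR8

end Pool.Agent.Q145.MD
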