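import Pool.Agent.Q145.MD.Win
import Pool.Agent.Q145.LD.Block

set_option autoImplicit false
set_option maxHeartbeats 4000000

/-! # The abstract law of moderate deviations: one tilt -/

namespace Pool.Agent.Q145.MD

open Finset Filter
open Pool.Agent.Q145.RA (seqs card_seqs card_filter_inst)
open Pool.Agent.Q145.LD (hit Z)

open scoped Classical

variable {α β : Type}

/-- the constants -/
structure Small (τ ε ε₃ η v A M : ℝ) : Prop where
  t0 : 0 < τ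
  e0 : 0 < ε
  e1 : ε ≤ 1
  e3 : ε₃ = ε ^ 2 / 64
  et : η = ε₃ / 80
  m : M = 128 / ε₃
  v0 : 0 < v
  v1 : v ≤ ε ^ 2 / 256
  a1 : 2 * Real.log M ≤ ε ^ 2 / 64 * A
  a2 : Real.exp (-(ε₃ / 2 * A)) ≤ τ / 8
  a3 : Real.exp (-(ε₃ * A)) ≤ 1 / 4
  a4 : 0 ≤ A

theorem small_ev (τ ε : ℝ) (ht : 0 < τ) (h0 : 0 < ε) (h1 : ε ≤ 1) : ∃ A₀ : ℝ, ∀ A v : ℝ, A₀ ≤ A → 0 < v → v ≤ ε ^ 2 / 256 →
    Small τ ε (ε ^ 2 / 64) (ε ^ 2 / 64 / 80) v A (128 / (ε ^ 2 / 64)) := by
  have hT : Tendsto (fun A : ℝ => ε ^ 2 / 64 * A) atTop atTop := tendsto_id.const_mul_atTop (by positivity)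
  obtain ⟨A₀, hA₀⟩ := eventually_atTop.1 ((hT.eventually_ge_atTop (2 * Real.log (128 / (ε ^ 2 / 64)))).and
    ((Pool.Agent.Q145.LD.ev_exp (ε ^ 2 / 64 / 2) (τ / 8) (by positivity) (by positivity)).and
    ((Pool.Agent.Q145.LD.ev_exp (ε ^ 2 / 64) (1 / 4) (by positivity) (by norm_num)).and (eventually_ge_atTop 0))))
  refine ⟨A₀, fun A v hA hv hv1 => ?_⟩
  obtain ⟨g1, g2, g3, g4⟩ := hA₀ A hA
  exact ⟨ht, h0, h1, rfl, rfl, rfl, hv, hv1, g1, g2, g3, g4⟩

theorem g_abs (y : ℝ) (hy : |y| ≤ 1) : |Real.exp y - 1| ≤ 2 * |y| := Real.abs_exp_sub_one_le hy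

/-- the exponents at time `j` -/
theorem expo (τ ε ε₃ η v A M η₁ σ μ x : ℝ) (hs : Small τ ε ε₃ η v A M) (hη₁ : 0 ≤ η₁)
    (hσv : |σ| ≤ 3 / 2 * v) (hx0 : 0 ≤ x) (hxμ : x ≤ μ)
    (q1 : μ * |σ| ^ 3 ≤ 4 * v * A) (q2 : μ * (|σ| * η₁) ≤ 3 / 2 * η * A) (q3 : μ * σ ^ 2 ≤ 2 * (1 - ε) * A) :
    A + ((1 + ε / 2) * (Real.log M - ((1 - ε₃) * A + (Real.exp σ - 1) * x)) +
      x * (Real.exp ((1 + ε / 2) * σ) - 1 + |Real.exp ((1 + ε / 2) * σ) - 1| * η₁)) ≤
      -(ε ^ 2 / 16 * A) + -(η * A) := by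
  obtain ⟨t0, e0, e1, e3, et, m, v0, v1, a1, a2, a3, a4⟩ := hs
  have hε₃ : 0 < ε₃ := by rw [e3]; positivity
  have hη : 0 < η := by rw [et]; positivity
  have hε2 : ε ^ 2 ≤ 1 := by nlinarith
  have hv256 : v ≤ 1 / 256 := by linarith
  have hσ1 : |σ| ≤ 1 / 64 := by linarith
  have hs0 := abs_nonneg σ
  set p : ℝ := 1 + ε / 2 with hp
  have hp0 : 0 < p := by rw [hp]; positivity
  have hp32 : p ≤ 3 / 2 := by rw [hp]; linarith
  have hp1 : 1 ≤ p := by rw [hp]; linarith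
  have hpσ : |p * σ| ≤ 1 := by
    rw [abs_mul, abs_of_pos hp0]
    nlinarith
  have h2 := (abs_le.1 (exp3 (p * σ) hpσ)).2
  have h3 := (abs_le.1 (exp3 σ (by linarith))).1
  have h4 : |p * σ| ^ 3 = p ^ 3 * |σ| ^ 3 := by
    rw [abs_mul, abs_of_pos hp0, mul_pow]
  rw [h4] at h2
  have h5 : |Real.exp (p * σ) - 1| ≤ 3 * |σ| := by
    refine (g_abs (p * σ) hpσ).trans ?_
    rw [abs_mul, abs_of_pos hp0]
    nlinarith
  have hs3 : 0 ≤ |σ| ^ 3 := pow_nonneg hs0 3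
  have hp3 : p ^ 3 ≤ 27 / 8 := by
    have := pow_le_pow_left₀ hp0.le hp32 3
    norm_num at this
    linarith
  have h6 : Real.exp (p * σ) - 1 - p * (Real.exp σ - 1) + |Real.exp (p * σ) - 1| * η₁ ≤
      p * (p - 1) * (σ ^ 2 / 2) + 2 * |σ| ^ 3 + 3 * (|σ| * η₁) := by
    have f1 : p ^ 3 * |σ| ^ 3 ≤ 27 / 8 * |σ| ^ 3 := mul_le_mul_of_nonneg_right hp3 hs3
    have f2 : p * (|σ| ^ 3 / 4) ≤ 3 / 2 * (|σ| ^ 3 / 4) := mul_le_mul_of_nonneg_right hp32 (by positivity)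
    have f3 : |Real.exp (p * σ) - 1| * η₁ ≤ 3 * |σ| * η₁ := mul_le_mul_of_nonneg_right h5 hη₁
    have f4 : p * (-(|σ| ^ 3 / 4)) ≤ p * (Real.exp σ - 1 - σ - σ ^ 2 / 2) := mul_le_mul_of_nonneg_left h3 hp0.le
    have f5 : p * (Real.exp σ - 1 - σ - σ ^ 2 / 2) = p * (Real.exp σ - 1) - p * σ - p * (σ ^ 2 / 2) := by ring
    have f6 : (p * σ) ^ 2 / 2 = p * (p - 1) * (σ ^ 2 / 2) + p * (σ ^ 2 / 2) := by ring
    have f7 : p * (-(|σ| ^ 3 / 4)) = -(p * (|σ| ^ 3 / 4)) := by ring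
    rw [f6] at h2
    rw [f5, f7] at f4
    linarith
  set U : ℝ := p * (p - 1) * (σ ^ 2 / 2) + 2 * |σ| ^ 3 + 3 * (|σ| * η₁) with hU
  have hp10 : 0 ≤ p - 1 := by linarith
  have hU0 : 0 ≤ U := by
    have f1 : 0 ≤ p * (p - 1) * (σ ^ 2 / 2) := mul_nonneg (mul_nonneg hp0.le hp10) (by positivity)
    have f2 : 0 ≤ 3 * (|σ| * η₁) := by positivity
    linarith
  have h7 : x * (Real.exp (p * σ) - 1 - p * (Real.exp σ - 1) + |Real.exp (p * σ) - 1| * η₁) ≤ μ * U :=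
    (mul_le_mul_of_nonneg_left h6 hx0).trans (mul_le_mul_of_nonneg_right hxμ hU0)
  have h8 : μ * U ≤ (p * (p - 1) * (1 - ε) + 8 * v + 9 / 2 * η) * A := by
    have f1 : μ * U = p * (p - 1) / 2 * (μ * σ ^ 2) + 2 * (μ * |σ| ^ 3) + 3 * (μ * (|σ| * η₁)) := by
      rw [hU]
      ring
    have f2 : p * (p - 1) / 2 * (μ * σ ^ 2) ≤ p * (p - 1) / 2 * (2 * (1 - ε) * A) := by
      apply mul_le_mul_of_nonneg_left q3
      exact div_nonneg (mul_nonneg hp0.le hp10) (by norm_num)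
    have f3 : (p * (p - 1) * (1 - ε) + 8 * v + 9 / 2 * η) * A = p * (p - 1) / 2 * (2 * (1 - ε) * A) +
        2 * (4 * v * A) + 3 * (3 / 2 * η * A) := by ring
    rw [f1, f3]
    linarith
  have h9 : p * (p - 1) * (1 - ε) ≤ ε / 2 - ε ^ 2 / 4 := by
    have f1 : p * (p - 1) * (1 - ε) = ε / 2 - ε ^ 2 / 4 - ε ^ 3 / 4 := by
      rw [hp]
      ring
    rw [f1]
    have := pow_pos e0 3
    linarith
  have h10 : 1 - p + p * ε₃ + (p * (p - 1) * (1 - ε) + 8 * v + 9 / 2 * η) ≤ -(ε ^ 2 / 8) := by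
    have f1 : p * ε₃ ≤ 3 / 2 * ε₃ := mul_le_mul_of_nonneg_right hp32 hε₃.le
    rw [et]
    rw [e3] at f1 ⊢
    have f2 : 1 - p = -(ε / 2) := by rw [hp]; ring
    rw [f2]
    have := pow_pos e0 2
    linarith
  have h11 : p * Real.log M ≤ ε ^ 2 / 64 * A := by
    rcases le_or_gt 0 (Real.log M) with f | f
    · have f1 : p * Real.log M ≤ 3 / 2 * Real.log M := mul_le_mul_of_nonneg_right hp32 f
      linarith
    · have f1 : p * Real.log M ≤ 0 := mul_nonpos_of_nonneg_of_nonpos hp0.le f.le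
      have f2 : 0 ≤ ε ^ 2 / 64 * A := by positivity
      linarith
  have h12 : (1 - p + p * ε₃ + (p * (p - 1) * (1 - ε) + 8 * v + 9 / 2 * η)) * A ≤ -(ε ^ 2 / 8) * A :=
    mul_le_mul_of_nonneg_right h10 a4
  have h13 : η * A ≤ ε ^ 2 / 64 * A := by
    apply mul_le_mul_of_nonneg_right _ a4
    rw [et, e3]
    have := pow_pos e0 2
    linarith
  have h14 : A + (p * (Real.log M - ((1 - ε₃) * A + (Real.exp σ - 1) * x)) +
      x * (Real.exp (p * σ) - 1 + |Real.exp (p * σ) - 1| * η₁)) =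
      (1 - p + p * ε₃) * A + p * Real.log M + x * (Real.exp (p * σ) - 1 - p * (Real.exp σ - 1) +
      |Real.exp (p * σ) - 1| * η₁) := by ring
  rw [h14]
  have h15 : 0 ≤ ε ^ 2 * A := by positivity
  have h16 : (1 - p + p * ε₃ + (p * (p - 1) * (1 - ε) + 8 * v + 9 / 2 * η)) * A =
      (1 - p + p * ε₃) * A + (p * (p - 1) * (1 - ε) + 8 * v + 9 / 2 * η) * A := by ring
  rw [h16] at h12
  linarith

/-- **The potential is rarely small.** -/
theorem lower_Z (τ ε ε₃ η v A M η₁ δ σ : ℝ) (hs : Small τ ε ε₃ η v A M) (hδ : 0 < δ) (hη₁ : 0 ≤ η₁) (hη₁v : η₁ ≤ η * v)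
    (hσ : σ ^ 2 ≤ 2 * (1 - ε) * v ^ 2) (S : Finset β) (W : Finset α) (R : α → β → Prop) (hR : Reg2 η₁ η δ S W R)
    (hWA : (W.card : ℝ) = Real.exp A) (k : ℕ) (hk : (k * δ) * v ^ 2 = A) (hkA : (k : ℝ) + 1 ≤ Real.exp (η * A)) :
    (((seqs S k).filter (fun s => ¬ (W.card * Real.exp ((Real.exp σ - 1) * (k * δ) - ε₃ * A) <
      Z (Real.exp σ) W (hit R s)))).card : ℝ) ≤ τ / 4 * (S.card : ℝ) ^ k := by
  obtain ⟨t0, e0, e1, e3, et, m, v0, v1, a1, a2, a3, a4⟩ := hs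
  have hε₃ : 0 < ε₃ := by rw [e3]; positivity
  have hη : 0 < η := by rw [et]; positivity
  have hM : 0 < M := by rw [m]; positivity
  have hW0 : (0 : ℝ) < W.card := by rw [hWA]; exact Real.exp_pos _
  have hWne : W.Nonempty := card_pos.1 (by exact_mod_cast hW0)
  have hSk : (0 : ℝ) ≤ (S.card : ℝ) ^ k := pow_nonneg (Nat.cast_nonneg _) _
  set μ : ℝ := k * δ with hμd
  have hμ0 : 0 ≤ μ := by positivity
  have hε2 : ε ^ 2 ≤ 1 := by nlinarith
  have hv256 : v ≤ 1 / 256 := by linarith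
  have hη5 : η ≤ 1 := by
    rw [et, e3]
    linarith
  -- the size of σ
  have hσv : |σ| ≤ 3 / 2 * v := by
    apply abs_le_of_sq_le_sq _ (by positivity)
    nlinarith [mul_nonneg e0.le (sq_nonneg v)]
  have hσ1 : |σ| ≤ 1 / 64 := by linarith
  have hs0 := abs_nonneg σ
  have hη₁1 : η₁ ≤ 1 := hη₁v.trans (by nlinarith)
  -- products with μ
  have q1 : μ * |σ| ^ 3 ≤ 4 * v * A := by
    have : |σ| ^ 3 ≤ (3 / 2 * v) ^ 3 := pow_le_pow_left₀ hs0 hσv 3
    calc μ * |σ| ^ 3 ≤ μ * (3 / 2 * v) ^ 3 := mul_le_mul_of_nonneg_left this hμ0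
      _ = 27 / 8 * v * (μ * v ^ 2) := by ring
      _ ≤ 4 * v * A := by
        rw [hk]
        have : 0 ≤ v * A := by positivity
        linarith
  have q2 : μ * (|σ| * η₁) ≤ 3 / 2 * η * A := by
    calc μ * (|σ| * η₁) ≤ μ * ((3 / 2 * v) * (η * v)) := by
          apply mul_le_mul_of_nonneg_left _ hμ0
          exact mul_le_mul hσv hη₁v hη₁ (by positivity)
      _ = 3 / 2 * η * (μ * v ^ 2) := by ring
      _ = 3 / 2 * η * A := by rw [hk]
  have q3 : μ * σ ^ 2 ≤ 2 * (1 - ε) * A := by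
    calc μ * σ ^ 2 ≤ μ * (2 * (1 - ε) * v ^ 2) := mul_le_mul_of_nonneg_left hσ hμ0
      _ = 2 * (1 - ε) * (μ * v ^ 2) := by ring
      _ = 2 * (1 - ε) * A := by rw [hk]
  set m₀ : ℝ := W.card * Real.exp (-(ε₃ * A)) with hm₀
  have hm₀0 : 0 < m₀ := mul_pos hW0 (Real.exp_pos _)
  have hthr : ∀ t : ℕ, thr m₀ δ (Real.exp σ) t = Real.exp ((1 - ε₃) * A + (Real.exp σ - 1) * δ * t) := by
    intro t
    unfold thr
    rw [hm₀, hWA, ← Real.exp_add, ← Real.exp_add]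
    congr 1
    ring
  have hthrk : thr m₀ δ (Real.exp σ) k = W.card * Real.exp ((Real.exp σ - 1) * μ - ε₃ * A) := by
    unfold thr
    rw [hm₀, mul_assoc, ← Real.exp_add]
    congr 2
    rw [hμd]
    ring
  -- the potential
  have p1 := pot_seqs η₁ η δ (Real.exp σ) M m₀ hη₁ hη₁1 hη.le hδ.le (Real.exp_pos _) hM hm₀0.le R S W hR hWne k
  have p2 : m₀ * Real.exp (rho η₁ η δ (Real.exp σ) M * k) / W.card ≤ τ / 8 := by
    rw [div_le_iff₀ hW0, hm₀, mul_assoc, ← Real.exp_add, mul_comm]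
    apply mul_le_mul_of_nonneg_right _ hW0.le
    refine le_trans (Real.exp_le_exp.2 ?_) a2
    have h1 : rho η₁ η δ (Real.exp σ) M * k = μ * (|Real.exp σ - 1| * η₁ +
        (Real.exp σ - 1) ^ 2 / min 1 (Real.exp σ) * (2 / M + η)) := by
      unfold rho
      rw [hμd]
      ring
    have h2 : |Real.exp σ - 1| ≤ 2 * |σ| := g_abs σ (by linarith)
    have h3 : (1 : ℝ) / 2 ≤ min 1 (Real.exp σ) := by
      apply le_min (by norm_num)
      have := Real.add_one_le_exp σ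
      have := (abs_le.1 hσ1).1
      linarith
    have h4 : (Real.exp σ - 1) ^ 2 / min 1 (Real.exp σ) ≤ 8 * σ ^ 2 := by
      rw [div_le_iff₀ (by linarith)]
      have h5 : (Real.exp σ - 1) ^ 2 ≤ (2 * |σ|) ^ 2 := by
        rw [← sq_abs (Real.exp σ - 1)]
        exact pow_le_pow_left₀ (abs_nonneg _) h2 2
      rw [mul_pow, sq_abs] at h5
      nlinarith [sq_nonneg σ]
    have h5 : μ * (|Real.exp σ - 1| * η₁) ≤ 3 * η * A := by
      calc μ * (|Real.exp σ - 1| * η₁) ≤ μ * (2 * |σ| * η₁) := by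
            apply mul_le_mul_of_nonneg_left _ hμ0
            exact mul_le_mul_of_nonneg_right h2 hη₁
        _ = 2 * (μ * (|σ| * η₁)) := by ring
        _ ≤ _ := by linarith
    have h6 : μ * ((Real.exp σ - 1) ^ 2 / min 1 (Real.exp σ) * (2 / M + η)) ≤ 16 * (2 / M + η) * A := by
      have f0 : 0 ≤ 2 / M + η := by positivity
      calc μ * ((Real.exp σ - 1) ^ 2 / min 1 (Real.exp σ) * (2 / M + η)) ≤ μ * (8 * σ ^ 2 * (2 / M + η)) := by
            apply mul_le_mul_of_nonneg_left _ hμ0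
            exact mul_le_mul_of_nonneg_right h4 f0
        _ = 8 * (2 / M + η) * (μ * σ ^ 2) := by ring
        _ ≤ 8 * (2 / M + η) * (2 * A) := by
            apply mul_le_mul_of_nonneg_left _ (by positivity)
            nlinarith
        _ = _ := by ring
    have h7 : 2 / M = ε₃ / 64 := by
      rw [m]
      field_simp
      norm_num
    rw [h1, mul_add]
    rw [h7, et] at h6
    rw [et] at h5
    have h8 : 0 ≤ ε₃ * A := by positivity
    nlinarith
  have p3 : (((seqs S k).filter (fun s => Low δ (Real.exp σ) M m₀ R W s)).card : ℝ) ≤ τ / 8 * (S.card : ℝ) ^ k := by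
    refine p1.trans ?_
    rw [mul_comm]
    exact mul_le_mul_of_nonneg_right p2 hSk
  -- the weights
  set p : ℝ := 1 + ε / 2 with hp
  have hp0 : 0 < p := by rw [hp]; positivity
  have hp32 : p ≤ 3 / 2 := by rw [hp]; linarith
  have hp1 : 1 ≤ p := by rw [hp]; linarith
  have b1 : ∀ j ≤ k, (((seqs S k).filter (fun s => Big (Real.exp σ) M (thr m₀ δ (Real.exp σ) j) R W j s)).card : ℝ) ≤
      Real.exp (-(ε ^ 2 / 16 * A)) * Real.exp (-(η * A)) * (S.card : ℝ) ^ k := by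
    intro j hj
    have h1 := big_le η₁ η δ σ p M (thr m₀ δ (Real.exp σ) j) hM (by rw [hthr]; exact Real.exp_pos _) hp0 R S W hR k j hj
    refine h1.trans ?_
    rw [mul_comm]
    apply mul_le_mul_of_nonneg_right _ hSk
    rw [hthr, Real.log_exp, hWA, ← Real.exp_add, ← Real.exp_add]
    apply Real.exp_le_exp.2
    have hj1 : (j : ℝ) * δ ≤ μ := by
      rw [hμd]
      exact mul_le_mul_of_nonneg_right (by exact_mod_cast hj) hδ.le
    have h2 := expo τ ε ε₃ η v A M η₁ σ μ ((j : ℝ) * δ) ⟨t0, e0, e1, e3, et, m, v0, v1, a1, a2, a3, a4⟩ hη₁ hσv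
      (by positivity) hj1 q1 q2 q3
    refine le_trans (le_of_eq ?_) h2
    rw [hp]
    ring
  -- the union over the times
  have b2 : (((seqs S k).filter (fun s => ∃ j ≤ k, Big (Real.exp σ) M (thr m₀ δ (Real.exp σ) j) R W j s)).card : ℝ) ≤
      τ / 8 * (S.card : ℝ) ^ k := by
    have h1 : (seqs S k).filter (fun s => ∃ j ≤ k, Big (Real.exp σ) M (thr m₀ δ (Real.exp σ) j) R W j s) ⊆
        (range (k + 1)).biUnion (fun j => (seqs S k).filter
          (fun s => Big (Real.exp σ) M (thr m₀ δ (Real.exp σ) j) R W j s)) := by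
      intro s hs
      obtain ⟨h2, j, hj, h3⟩ := mem_filter.1 hs
      exact mem_biUnion.2 ⟨j, mem_range.2 (by omega), mem_filter.2 ⟨h2, h3⟩⟩
    have h2 : (((seqs S k).filter (fun s => ∃ j ≤ k, Big (Real.exp σ) M (thr m₀ δ (Real.exp σ) j) R W j s)).card : ℝ) ≤
        ∑ j ∈ range (k + 1), (((seqs S k).filter
          (fun s => Big (Real.exp σ) M (thr m₀ δ (Real.exp σ) j) R W j s)).card : ℝ) := by
      exact_mod_cast (card_le_card h1).trans card_biUnion_le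
    refine h2.trans ((sum_le_sum fun j hj => b1 j (by have := mem_range.1 hj; omega)).trans ?_)
    rw [sum_const, card_range, nsmul_eq_mul, ← mul_assoc]
    apply mul_le_mul_of_nonneg_right _ hSk
    have h3 : ((k + 1 : ℕ) : ℝ) * Real.exp (-(η * A)) ≤ 1 := by
      rw [Real.exp_neg, ← div_eq_mul_inv, div_le_one (Real.exp_pos _)]
      push_cast
      exact hkA
    have h4 : Real.exp (-(ε ^ 2 / 16 * A)) ≤ τ / 8 := by
      refine le_trans (Real.exp_le_exp.2 ?_) a2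
      rw [e3]
      have : 0 ≤ ε ^ 2 * A := by positivity
      nlinarith
    calc ((k + 1 : ℕ) : ℝ) * (Real.exp (-(ε ^ 2 / 16 * A)) * Real.exp (-(η * A))) =
        Real.exp (-(ε ^ 2 / 16 * A)) * (((k + 1 : ℕ) : ℝ) * Real.exp (-(η * A))) := by ring
      _ ≤ Real.exp (-(ε ^ 2 / 16 * A)) * 1 := mul_le_mul_of_nonneg_left h3 (Real.exp_pos _).le
      _ ≤ τ / 8 := by linarith
  have hsub : (seqs S k).filter (fun s => ¬ (W.card * Real.exp ((Real.exp σ - 1) * μ - ε₃ * A) <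
      Z (Real.exp σ) W (hit R s))) ⊆ (seqs S k).filter (fun s => Low δ (Real.exp σ) M m₀ R W s) ∪
      (seqs S k).filter (fun s => ∃ j ≤ k, Big (Real.exp σ) M (thr m₀ δ (Real.exp σ) j) R W j s) := by
    intro s hs
    obtain ⟨h1, h2⟩ := mem_filter.1 hs
    rw [not_lt] at h2
    by_contra h3
    rw [mem_union, not_or, mem_filter, mem_filter] at h3
    obtain ⟨h4, h5⟩ := h3
    apply h4
    refine ⟨h1, fun j hj n hn => ?_, ?_⟩
    · by_contra h6
      exact h5 ⟨h1, j, hj, n, hn, not_le.1 h6⟩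
    · rw [hthrk]
      exact h2
  have hcr : (((seqs S k).filter (fun s => ¬ (W.card * Real.exp ((Real.exp σ - 1) * μ - ε₃ * A) <
      Z (Real.exp σ) W (hit R s)))).card : ℝ) ≤ (((seqs S k).filter (fun s => Low δ (Real.exp σ) M m₀ R W s)).card : ℝ) +
      (((seqs S k).filter (fun s => ∃ j ≤ k, Big (Real.exp σ) M (thr m₀ δ (Real.exp σ) j) R W j s)).card : ℝ) := by
    exact_mod_cast (card_le_card hsub).trans (card_union_le _ _)
  linarith

/-- **The potential is rarely large.** -/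
theorem upper_Z (τ ε ε₃ η v A M η₁ δ σ : ℝ) (hs : Small τ ε ε₃ η v A M) (hδ : 0 < δ) (hη₁ : 0 ≤ η₁) (hη₁v : η₁ ≤ η * v)
    (hσ : |σ| ≤ 4 * v) (S : Finset β) (W : Finset α) (R : α → β → Prop) (hR : Reg2 η₁ η δ S W R)
    (hW : 0 < W.card) (k : ℕ) (hk : (k * δ) * v ^ 2 = A) :
    (((seqs S k).filter (fun s => ¬ (Z (Real.exp σ) W (hit R s) ≤
      W.card * Real.exp ((Real.exp σ - 1) * (k * δ) + ε₃ * A)))).card : ℝ) ≤ τ / 8 * (S.card : ℝ) ^ k := by
  obtain ⟨t0, e0, e1, e3, et, m, v0, v1, a1, a2, a3, a4⟩ := hs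
  have hε₃ : 0 < ε₃ := by rw [e3]; positivity
  have hη : 0 < η := by rw [et]; positivity
  have hW0 : (0 : ℝ) < W.card := by exact_mod_cast hW
  set μ : ℝ := k * δ with hμd
  have hμ0 : 0 ≤ μ := by positivity
  have hv256 : v ≤ 1 / 256 := by nlinarith
  have hσ1 : |σ| ≤ 1 := by linarith
  have h1 := fst η₁ η δ (Real.exp σ) (Real.exp_pos _) R S W hR k (W.card * Real.exp ((Real.exp σ - 1) * μ + ε₃ * A))
    (by positivity)
  have hsub : (((seqs S k).filter (fun s => ¬ (Z (Real.exp σ) W (hit R s) ≤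
      W.card * Real.exp ((Real.exp σ - 1) * μ + ε₃ * A)))).card : ℝ) ≤
      (((seqs S k).filter (fun s => Ups (Real.exp σ) (W.card * Real.exp ((Real.exp σ - 1) * μ + ε₃ * A)) R W s)).card : ℝ) := by
    apply Nat.cast_le.2
    apply card_le_card
    intro s hs
    rw [mem_filter] at hs ⊢
    exact ⟨hs.1, (not_le.1 hs.2).le⟩
  refine (hsub.trans h1).trans ?_
  rw [mul_comm]
  apply mul_le_mul_of_nonneg_right _ (by positivity)
  rw [div_le_iff₀ (by positivity)]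
  have h2 : μ * (|Real.exp σ - 1| * η₁) ≤ ε₃ / 2 * A := by
    have f1 : |Real.exp σ - 1| ≤ 8 * v := (g_abs σ hσ1).trans (by linarith)
    calc μ * (|Real.exp σ - 1| * η₁) ≤ μ * (8 * v * (η * v)) := by
          apply mul_le_mul_of_nonneg_left _ hμ0
          exact mul_le_mul f1 hη₁v hη₁ (by positivity)
      _ = 8 * η * (μ * v ^ 2) := by ring
      _ = 8 * η * A := by rw [hk]
      _ ≤ ε₃ / 2 * A := by
        rw [et]
        have : 0 ≤ ε₃ * A := by positivity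
        nlinarith
  calc (W.card : ℝ) * Real.exp (k * (δ * (Real.exp σ - 1 + |Real.exp σ - 1| * η₁)))
      = W.card * Real.exp ((Real.exp σ - 1) * μ + μ * (|Real.exp σ - 1| * η₁)) := by
        congr 2
        rw [hμd]
        ring
    _ ≤ W.card * Real.exp ((Real.exp σ - 1) * μ + ε₃ / 2 * A) := by
        apply mul_le_mul_of_nonneg_left _ hW0.le
        apply Real.exp_le_exp.2
        linarith
    _ = Real.exp (-(ε₃ / 2 * A)) * (W.card * Real.exp ((Real.exp σ - 1) * μ + ε₃ * A)) := by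
        have : Real.exp ((Real.exp σ - 1) * μ + ε₃ / 2 * A) =
            Real.exp (-(ε₃ / 2 * A)) * Real.exp ((Real.exp σ - 1) * μ + ε₃ * A) := by
          rw [← Real.exp_add]
          congr 1
          ring
        rw [this]
        ring
    _ ≤ τ / 8 * (W.card * Real.exp ((Real.exp σ - 1) * μ + ε₃ * A)) :=
        mul_le_mul_of_nonneg_right a2 (by positivity)

end Pool.Agent.Q145.MD
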