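import Pool.Agent.Q145.MD.Path

set_option autoImplicit false
set_option maxHeartbeats 4000000

/-! # Moments of the weights and the largest weight -/

namespace Pool.Agent.Q145.MD

open Finset Filter
open Pool.Agent.Q145.RA (seqs card_seqs card_filter_inst)
open Pool.Agent.Q145.LD (hit Z stp cc Z_stp Z_pos cc_bds sum_cc inv_le hit_cons)

open scoped Classical

variable {α β : Type}

/-- the exponential moment of one step -/
theorem deg_exp (η₁ η δ lam : ℝ) (R : α → β → Prop) (S : Finset β) (W : Finset α)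
    (hR : Reg2 η₁ η δ S W R) (n : α) (hn : n ∈ W) :
    (S.card : ℝ) + (lam - 1) * ((S.filter (fun a => R n a)).card : ℝ) ≤
      S.card * Real.exp (δ * (lam - 1 + |lam - 1| * η₁)) := by
  have hS0 : (0 : ℝ) ≤ S.card := Nat.cast_nonneg _
  have e1 := hR.lo n hn
  have e2 := hR.hi n hn
  set d : ℝ := ((S.filter (fun a => R n a)).card : ℝ) with hd
  have e4 : (lam - 1) * d ≤ S.card * (δ * (lam - 1 + |lam - 1| * η₁)) := by
    have f1 : |d - δ * S.card| ≤ η₁ * (δ * S.card) := by
      rw [abs_le]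
      constructor <;> linarith
    have f2 : (lam - 1) * d = (lam - 1) * (δ * S.card) + (lam - 1) * (d - δ * S.card) := by ring
    have f3 : (lam - 1) * (d - δ * S.card) ≤ |lam - 1| * (η₁ * (δ * S.card)) := by
      calc (lam - 1) * (d - δ * S.card) ≤ |(lam - 1) * (d - δ * S.card)| := le_abs_self _
        _ = |lam - 1| * |d - δ * S.card| := abs_mul _ _
        _ ≤ _ := mul_le_mul_of_nonneg_left f1 (abs_nonneg _)
    rw [f2]
    linarith
  have f1 := Real.add_one_le_exp (δ * (lam - 1 + |lam - 1| * η₁))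
  have f2 := mul_le_mul_of_nonneg_left f1 hS0
  linarith

/-- the moments of the prefix counts -/
theorem sum_ph (lam c : ℝ) (hl : 0 < lam) (R : α → β → Prop) (S : Finset β) (n : α)
    (hc : (S.card : ℝ) + (lam - 1) * ((S.filter (fun a => R n a)).card : ℝ) ≤ S.card * Real.exp c)
    (k j : ℕ) (hj : j ≤ k) :
    ∑ s ∈ seqs S k, lam ^ ph R s j n ≤ (S.card : ℝ) ^ k * Real.exp (j * c) := by
  have h1 : ∀ s : Fin k → β, lam ^ ph R s j n = ∏ i : Fin k, (if (i : ℕ) < j ∧ R n (s i) then lam else 1) := by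
    intro s
    unfold ph
    rw [← prod_pow_eq_pow_sum]
    apply prod_congr rfl
    intro i _
    split_ifs
    · rw [pow_one]
    · rw [pow_zero]
  simp_rw [h1]
  unfold seqs
  rw [← Finset.prod_univ_sum (t := fun _ : Fin k => S) (f := fun i a => if (i : ℕ) < j ∧ R n a then lam else 1)]
  have hS0 : (0 : ℝ) ≤ S.card := Nat.cast_nonneg _
  have h2 : ∀ i : Fin k, ∑ a ∈ S, (if (i : ℕ) < j ∧ R n a then lam else 1) ≤
      S.card * (if (i : ℕ) < j then Real.exp c else 1) := by
    intro i
    by_cases hi : (i : ℕ) < j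
    · rw [if_pos hi]
      refine le_trans (le_of_eq ?_) hc
      have h3 : ∀ a ∈ S, (if (i : ℕ) < j ∧ R n a then lam else 1) = 1 + (lam - 1) * (if R n a then 1 else 0) := by
        intro a _
        by_cases h : R n a
        · rw [if_pos ⟨hi, h⟩, if_pos h]
          ring
        · rw [if_neg (fun h' => h h'.2), if_neg h]
          ring
      rw [sum_congr rfl h3, sum_add_distrib, ← mul_sum, sum_const, nsmul_eq_mul, mul_one, ← sum_filter, sum_const,
        nsmul_eq_mul, mul_one]
    · rw [if_neg hi, mul_one]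
      have h3 : ∀ a ∈ S, (if (i : ℕ) < j ∧ R n a then lam else 1) = 1 := by
        intro a _
        rw [if_neg (fun h' => hi h'.1)]
      rw [sum_congr rfl h3, sum_const, nsmul_eq_mul, mul_one]
  have h0 : ∀ i ∈ (univ : Finset (Fin k)), (0 : ℝ) ≤ ∑ a ∈ S, (if (i : ℕ) < j ∧ R n a then lam else 1) := by
    intro i _
    apply sum_nonneg
    intro a _
    split_ifs
    · exact hl.le
    · exact zero_le_one
  refine (prod_le_prod h0 fun i _ => h2 i).trans (le_of_eq ?_)
  rw [prod_mul_distrib, prod_const, card_univ, Fintype.card_fin]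
  congr 1
  rw [prod_ite, prod_const, prod_const_one, mul_one, ← Real.exp_nat_mul]
  congr 2
  have h4 : (univ.filter (fun i : Fin k => (i : ℕ) < j)).card = j := by
    have h5 : (univ.filter (fun i : Fin k => (i : ℕ) < j)) = (univ : Finset (Fin j)).map (Fin.castLEEmb hj) := by
      ext i
      rw [mem_filter, Finset.mem_map]
      constructor
      · rintro ⟨_, h⟩
        exact ⟨⟨i, h⟩, mem_univ _, by ext; rfl⟩
      · rintro ⟨a, _, rfl⟩
        exact ⟨mem_univ _, a.isLt⟩
    rw [h5, card_map, card_univ, Fintype.card_fin]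
  exact_mod_cast h4

/-- the exceptional set for the potential -/
def Ups (lam z : ℝ) (R : α → β → Prop) (W : Finset α) {k : ℕ} (s : Fin k → β) : Prop := z ≤ Z lam W (hit R s)

theorem fst (η₁ η δ lam : ℝ) (hl : 0 < lam) (R : α → β → Prop) (S : Finset β)
    (W : Finset α) (hR : Reg2 η₁ η δ S W R) (k : ℕ) (z : ℝ) (hz : 0 < z) :
    (((seqs S k).filter (fun s => Ups lam z R W s)).card : ℝ) ≤
      (S.card : ℝ) ^ k * (W.card * Real.exp (k * (δ * (lam - 1 + |lam - 1| * η₁))) / z) := by
  have hS0 : (0 : ℝ) ≤ S.card := Nat.cast_nonneg _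
  have hZ0 : ∀ s ∈ seqs S k, 0 ≤ Z lam W (hit R s) := fun s _ => sum_nonneg fun _ _ => (pow_pos hl _).le
  have h1 : (((seqs S k).filter (fun s => Ups lam z R W s)).card : ℝ) * z ≤ ∑ s ∈ seqs S k, Z lam W (hit R s) := by
    calc (((seqs S k).filter (fun s => Ups lam z R W s)).card : ℝ) * z
        = ∑ _s ∈ (seqs S k).filter (fun s => Ups lam z R W s), z := by rw [sum_const, nsmul_eq_mul]
      _ ≤ ∑ s ∈ (seqs S k).filter (fun s => Ups lam z R W s), Z lam W (hit R s) :=
          sum_le_sum fun s hs => (mem_filter.1 hs).2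
      _ ≤ _ := sum_le_sum_of_subset_of_nonneg (filter_subset _ _) (fun s hs _ => hZ0 s hs)
  have h2 : ∑ s ∈ seqs S k, Z lam W (hit R s) ≤
      (S.card : ℝ) ^ k * (W.card * Real.exp (k * (δ * (lam - 1 + |lam - 1| * η₁)))) := by
    unfold Z
    rw [sum_comm]
    have h4 : ∀ n ∈ W, ∑ s ∈ seqs S k, lam ^ hit R s n ≤
        (S.card : ℝ) ^ k * Real.exp (k * (δ * (lam - 1 + |lam - 1| * η₁))) := by
      intro n hn
      have h5 := sum_ph lam _ hl R S n (deg_exp η₁ η δ lam R S W hR n hn) k k (le_refl k)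
      simp_rw [ph_full] at h5
      exact h5
    refine (sum_le_sum h4).trans (le_of_eq ?_)
    rw [sum_const, nsmul_eq_mul]
    ring
  rw [← mul_div_assoc, le_div_iff₀ hz]
  exact h1.trans h2

/-- a weight is too large at time `j` -/
def Big (lam M T : ℝ) (R : α → β → Prop) (W : Finset α) (j : ℕ) {k : ℕ} (s : Fin k → β) : Prop :=
  ∃ n ∈ W, T < M * lam ^ ph R s j n

theorem big_le (η₁ η δ σ p M T : ℝ) (hM : 0 < M) (hT : 0 < T) (hp : 0 < p) (R : α → β → Prop)
    (S : Finset β) (W : Finset α) (hR : Reg2 η₁ η δ S W R) (k j : ℕ) (hj : j ≤ k) :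
    (((seqs S k).filter (fun s => Big (Real.exp σ) M T R W j s)).card : ℝ) ≤
      (S.card : ℝ) ^ k * (W.card * Real.exp (p * (Real.log M - Real.log T) +
        j * (δ * (Real.exp (p * σ) - 1 + |Real.exp (p * σ) - 1| * η₁)))) := by
  have h1 : (((seqs S k).filter (fun s => Big (Real.exp σ) M T R W j s)).card : ℝ) ≤
      ∑ s ∈ seqs S k, ∑ n ∈ W, Real.exp (p * (Real.log M - Real.log T)) * Real.exp (p * σ) ^ ph R s j n := by
    rw [card_eq_sum_ones, Nat.cast_sum]
    have h2 : ∀ s ∈ (seqs S k).filter (fun s => Big (Real.exp σ) M T R W j s), ((1 : ℕ) : ℝ) ≤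
        ∑ n ∈ W, Real.exp (p * (Real.log M - Real.log T)) * Real.exp (p * σ) ^ ph R s j n := by
      intro s hs
      obtain ⟨n, hn, h3⟩ := (mem_filter.1 hs).2
      have h4 : (1 : ℝ) ≤ Real.exp (p * (Real.log M - Real.log T)) * Real.exp (p * σ) ^ ph R s j n := by
        rw [← Real.exp_nat_mul, ← Real.exp_add]
        apply Real.one_le_exp
        have h5 := Real.log_le_log hT h3.le
        rw [Real.log_mul hM.ne' (pow_pos (Real.exp_pos _) _).ne', Real.log_pow, Real.log_exp] at h5
        have h6 : p * (Real.log M - Real.log T) + (ph R s j n : ℝ) * (p * σ) =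
            p * (Real.log M + ph R s j n * σ - Real.log T) := by ring
        rw [h6]
        exact mul_nonneg hp.le (by linarith)
      rw [Nat.cast_one]
      refine h4.trans ?_
      exact single_le_sum (f := fun n => Real.exp (p * (Real.log M - Real.log T)) * Real.exp (p * σ) ^ ph R s j n)
        (fun _ _ => by positivity) hn
    refine (sum_le_sum h2).trans ?_
    apply sum_le_sum_of_subset_of_nonneg (filter_subset _ _)
    intro s _ _
    positivity
  refine h1.trans ?_
  rw [sum_comm]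
  have h3 : ∀ n ∈ W, ∑ s ∈ seqs S k, Real.exp (p * (Real.log M - Real.log T)) * Real.exp (p * σ) ^ ph R s j n ≤
      Real.exp (p * (Real.log M - Real.log T)) * ((S.card : ℝ) ^ k *
        Real.exp (j * (δ * (Real.exp (p * σ) - 1 + |Real.exp (p * σ) - 1| * η₁)))) := by
    intro n hn
    rw [← mul_sum]
    apply mul_le_mul_of_nonneg_left _ (Real.exp_pos _).le
    exact sum_ph (Real.exp (p * σ)) _ (Real.exp_pos _) R S n (deg_exp η₁ η δ _ R S W hR n hn) k j hj
  refine (sum_le_sum h3).trans (le_of_eq ?_)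
  rw [sum_const, nsmul_eq_mul, Real.exp_add]
  ring

end Pool.Agent.Q145.MD
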