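import Pool.Agent.Q145.MD.Tilt

set_option autoImplicit false
set_option maxHeartbeats 4000000

/-! # The potential argument along a path -/

namespace Pool.Agent.Q145.MD

open Finset Filter
open Pool.Agent.Q145.RA (seqs card_seqs card_filter_inst)
open Pool.Agent.Q145.LD (hit Z stp cc Z_stp Z_pos cc_bds sum_cc inv_le hit_cons)

open scoped Classical

variable {α β : Type}

/-- the hits of the first `j` terms -/
noncomputable def ph {k : ℕ} (R : α → β → Prop) (s : Fin k → β) (j : ℕ) (n : α) : ℕ :=
  ∑ i : Fin k, if (i : ℕ) < j ∧ R n (s i) then 1 else 0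

theorem ph_zero {k : ℕ} (R : α → β → Prop) (s : Fin k → β) (n : α) : ph R s 0 n = 0 := by
  unfold ph
  apply sum_eq_zero
  intro i _
  simp

theorem ph_full {k : ℕ} (R : α → β → Prop) (s : Fin k → β) (n : α) : ph R s k n = hit R s n := by
  unfold ph hit
  apply sum_congr rfl
  intro i _
  simp [i.isLt]

theorem ph_cons {k : ℕ} (R : α → β → Prop) (a : β) (s : Fin k → β) (j : ℕ) (n : α) :
    ph R (Fin.cons a s : Fin (k + 1) → β) (j + 1) n = (if R n a then 1 else 0) + ph R s j n := by
  unfold ph
  rw [Fin.sum_univ_succ]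
  congr 1
  · simp
  · apply sum_congr rfl
    intro i _
    simp

theorem card_cons (S : Finset β) (k : ℕ) (P : (Fin (k + 1) → β) → Prop) :
    ((seqs S (k + 1)).filter P).card = ∑ a ∈ S, ((seqs S k).filter (fun s => P (Fin.cons a s))).card := by
  unfold seqs
  rw [card_eq_sum_card_fiberwise (f := fun s : Fin (k + 1) → β => s 0) (t := S)
    (fun s hs => (Fintype.mem_piFinset.1 (mem_filter.1 hs).1) 0)]
  apply sum_congr rfl
  intro a ha
  refine card_bij' (fun s _ => Fin.tail s) (fun s _ => Fin.cons a s) ?_ ?_ ?_ ?_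
  · intro s hs
    obtain ⟨h1, h2⟩ := mem_filter.1 hs
    obtain ⟨h3, h4⟩ := mem_filter.1 h1
    refine mem_filter.2 ⟨Fintype.mem_piFinset.2 fun i => (Fintype.mem_piFinset.1 h3) i.succ, ?_⟩
    rw [← h2, Fin.cons_self_tail]
    exact h4
  · intro s hs
    obtain ⟨h1, h2⟩ := mem_filter.1 hs
    refine mem_filter.2 ⟨mem_filter.2 ⟨Fintype.mem_piFinset.2 ?_, ?_⟩, ?_⟩
    · intro i
      refine Fin.cases ?_ ?_ i
      · rw [Fin.cons_zero]
        exact ha
      · intro j
        rw [Fin.cons_succ]
        exact (Fintype.mem_piFinset.1 h1) j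
    · exact h2
    · exact Fin.cons_zero _ _
  · intro s hs
    obtain ⟨h1, h2⟩ := mem_filter.1 hs
    rw [← h2]
    exact Fin.cons_self_tail s
  · intro s _
    exact Fin.tail_cons _ _

/-- the number of the continuations with `P` all the time and `Q` at the end -/
noncomputable def bp (S : Finset β) (R : α → β → Prop) (P Q : ℕ → (α → ℕ) → Prop) : ℕ → ℕ → (α → ℕ) → ℕ
  | 0, t, h => if P t h ∧ Q t h then 1 else 0
  | k + 1, t, h => if P t h then ∑ a ∈ S, bp S R P Q k (t + 1) (stp R h a) else 0

theorem bp_le (S : Finset β) (R : α → β → Prop) (P Q : ℕ → (α → ℕ) → Prop) : ∀ (k t : ℕ) (h : α → ℕ),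
    bp S R P Q k t h ≤ S.card ^ k := by
  intro k
  induction k with
  | zero =>
    intro t h
    unfold bp
    split_ifs <;> simp
  | succ k ih =>
    intro t h
    unfold bp
    split_ifs
    · calc ∑ a ∈ S, bp S R P Q k (t + 1) (stp R h a) ≤ ∑ _a ∈ S, S.card ^ k := sum_le_sum fun a _ => ih _ _
        _ = S.card ^ (k + 1) := by rw [sum_const, smul_eq_mul, pow_succ, mul_comm]
    · exact Nat.zero_le _

/-- `P` all the time and `Q` at the end -/
def Path (R : α → β → Prop) (P Q : ℕ → (α → ℕ) → Prop) (t : ℕ) (h : α → ℕ) {k : ℕ} (s : Fin k → β) : Prop :=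
  (∀ j ≤ k, P (t + j) (fun n => h n + ph R s j n)) ∧ Q (t + k) (fun n => h n + hit R s n)

theorem seq_count (S : Finset β) (R : α → β → Prop) (P Q : ℕ → (α → ℕ) → Prop) : ∀ (k t : ℕ) (h : α → ℕ),
    ((seqs S k).filter (fun s => Path R P Q t h s)).card ≤ bp S R P Q k t h := by
  intro k
  induction k with
  | zero =>
    intro t h
    have h0 : ∀ s : Fin 0 → β, (fun n => h n + hit R s n) = h := by
      intro s
      funext n
      unfold hit
      simp
    unfold bp
    split_ifs with h1
    · refine (card_filter_le _ _).trans ?_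
      rw [card_seqs, pow_zero]
    · rw [Nat.le_zero, card_eq_zero]
      apply filter_false_of_mem
      rintro s _ ⟨h2, h3⟩
      apply h1
      have h4 := h2 0 (le_refl 0)
      rw [h0] at h3
      have h5 : (fun n => h n + ph R s 0 n) = h := by
        funext n
        rw [ph_zero, add_zero]
      rw [h5] at h4
      exact ⟨h4, h3⟩
  | succ k ih =>
    intro t h
    unfold bp
    split_ifs with h1
    · rw [card_cons]
      apply sum_le_sum
      intro a _
      refine le_trans ?_ (ih (t + 1) (stp R h a))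
      apply card_le_card
      intro s hs
      rw [mem_filter] at hs ⊢
      obtain ⟨h2, h3, h4⟩ := hs
      refine ⟨h2, fun j hj => ?_, ?_⟩
      · have h5 := h3 (j + 1) (by omega)
        have h6 : (fun n => h n + ph R (Fin.cons a s : Fin (k + 1) → β) (j + 1) n) =
            (fun n => stp R h a n + ph R s j n) := by
          funext n
          rw [ph_cons]
          unfold stp
          ring
        rw [h6, show t + (j + 1) = t + 1 + j by ring] at h5
        exact h5
      · have h6 : (fun n => h n + hit R (Fin.cons a s : Fin (k + 1) → β) n) =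
            (fun n => stp R h a n + hit R s n) := by
          funext n
          rw [hit_cons]
          unfold stp
          ring
        rw [h6, show t + (k + 1) = t + 1 + k by ring] at h4
        exact h4
    · rw [Nat.le_zero, card_eq_zero]
      apply filter_false_of_mem
      rintro s _ ⟨h2, _⟩
      apply h1
      have h4 := h2 0 (Nat.zero_le _)
      have h5 : (fun n => h n + ph R s 0 n) = h := by
        funext n
        rw [ph_zero, add_zero]
      rw [h5, add_zero] at h4
      exact h4

/-- the error rate -/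
noncomputable def rho (η₁ η δ lam M : ℝ) : ℝ :=
  δ * (|lam - 1| * η₁ + (lam - 1) ^ 2 / min 1 lam * (2 / M + η))

/-- the threshold -/
noncomputable def thr (m₀ δ lam : ℝ) (t : ℕ) : ℝ := m₀ * Real.exp ((lam - 1) * δ * t)

theorem thr_succ (m₀ δ lam : ℝ) (t : ℕ) : thr m₀ δ lam (t + 1) = thr m₀ δ lam t * Real.exp ((lam - 1) * δ) := by
  unfold thr
  rw [mul_assoc m₀, ← Real.exp_add]
  congr 2
  push_cast
  ring

/-- **The potential argument along a path.** -/
theorem pot (η₁ η δ lam M m₀ : ℝ) (hη₁ : 0 ≤ η₁) (hη₁1 : η₁ ≤ 1) (hη : 0 ≤ η) (hδ : 0 ≤ δ) (hl : 0 < lam) (hM : 0 < M)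
    (hm : 0 ≤ m₀) (R : α → β → Prop) (S : Finset β) (W : Finset α) (hR : Reg2 η₁ η δ S W R) (hW : W.Nonempty) :
    ∀ (k t : ℕ) (h : α → ℕ), (bp S R (fun t f => ∀ n ∈ W, M * lam ^ f n ≤ thr m₀ δ lam t)
      (fun t f => Z lam W f ≤ thr m₀ δ lam t) k t h : ℝ) ≤
      (S.card : ℝ) ^ k * (thr m₀ δ lam t * Real.exp (rho η₁ η δ lam M * k) / Z lam W h) := by
  have hρ : 0 ≤ rho η₁ η δ lam M := by
    unfold rho
    have : 0 < min 1 lam := lt_min one_pos hl
    positivity
  have hthr : ∀ t, 0 ≤ thr m₀ δ lam t := fun t => by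
    unfold thr
    positivity
  intro k
  induction k with
  | zero =>
    intro t h
    have hz0 := Z_pos lam hl W hW h
    unfold bp
    rw [pow_zero, one_mul, Nat.cast_zero, mul_zero, Real.exp_zero, mul_one]
    split_ifs with h1
    · rw [Nat.cast_one, le_div_iff₀ hz0, one_mul]
      exact h1.2
    · rw [Nat.cast_zero]
      exact div_nonneg (hthr t) hz0.le
  | succ k ih =>
    intro t h
    have hz0 := Z_pos lam hl W hW h
    rcases le_or_gt (Z lam W h) (thr m₀ δ lam t) with hZ | hZ
    · have h4 : (bp S R (fun t f => ∀ n ∈ W, M * lam ^ f n ≤ thr m₀ δ lam t)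
          (fun t f => Z lam W f ≤ thr m₀ δ lam t) (k + 1) t h : ℝ) ≤ (S.card : ℝ) ^ (k + 1) := by
        exact_mod_cast bp_le S R _ _ (k + 1) t h
      refine h4.trans (le_mul_of_one_le_right (by positivity) ?_)
      rw [le_div_iff₀ hz0, one_mul]
      have h6 : 1 ≤ Real.exp (rho η₁ η δ lam M * ((k + 1 : ℕ) : ℝ)) := Real.one_le_exp (by positivity)
      have h7 := hthr t
      nlinarith
    · unfold bp
      split_ifs with h1
      · have hWm : ∀ n ∈ W, lam ^ h n ≤ thr m₀ δ lam t / M := by
          intro n hn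
          rw [le_div_iff₀ hM, mul_comm]
          exact h1 n hn
        have h2 := step_pot η₁ η δ lam (thr m₀ δ lam t / M) M hη₁ hη₁1 hη hδ hl hM R S W hR hW h hWm (by
          rw [mul_div_cancel₀ _ hM.ne']
          exact hZ.le)
        push_cast
        calc ∑ a ∈ S, (bp S R (fun t f => ∀ n ∈ W, M * lam ^ f n ≤ thr m₀ δ lam t)
            (fun t f => Z lam W f ≤ thr m₀ δ lam t) k (t + 1) (stp R h a) : ℝ)
            ≤ ∑ a ∈ S, (S.card : ℝ) ^ k * (thr m₀ δ lam (t + 1) * Real.exp (rho η₁ η δ lam M * k) /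
              Z lam W (stp R h a)) := sum_le_sum fun a _ => ih (t + 1) (stp R h a)
          _ = (S.card : ℝ) ^ k * (thr m₀ δ lam (t + 1) * Real.exp (rho η₁ η δ lam M * k)) *
              ∑ a ∈ S, 1 / Z lam W (stp R h a) := by
              rw [mul_sum]
              apply sum_congr rfl
              intro a _
              ring
          _ ≤ (S.card : ℝ) ^ k * (thr m₀ δ lam (t + 1) * Real.exp (rho η₁ η δ lam M * k)) *
              (S.card * Real.exp (δ * (-(lam - 1) + |lam - 1| * η₁ + (lam - 1) ^ 2 / min 1 lam * (2 / M + η))) /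
                Z lam W h) :=
              mul_le_mul_of_nonneg_left h2 (mul_nonneg (by positivity) (mul_nonneg (hthr _) (Real.exp_pos _).le))
          _ = (S.card : ℝ) ^ (k + 1) * (thr m₀ δ lam t * Real.exp (rho η₁ η δ lam M * (k + 1)) / Z lam W h) := by
              rw [thr_succ]
              have e1 : Real.exp (rho η₁ η δ lam M * (k + 1)) = Real.exp ((lam - 1) * δ) *
                  Real.exp (rho η₁ η δ lam M * k) *
                  Real.exp (δ * (-(lam - 1) + |lam - 1| * η₁ + (lam - 1) ^ 2 / min 1 lam * (2 / M + η))) := by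
                rw [← Real.exp_add, ← Real.exp_add]
                congr 1
                unfold rho
                ring
              rw [e1]
              ring
      · rw [Nat.cast_zero]
        have h3 := hthr t
        positivity

/-- small weights all the time, small final potential -/
def Low (δ lam M m₀ : ℝ) (R : α → β → Prop) (W : Finset α) {k : ℕ} (s : Fin k → β) : Prop :=
  (∀ j ≤ k, ∀ n ∈ W, M * lam ^ ph R s j n ≤ thr m₀ δ lam j) ∧ Z lam W (hit R s) ≤ thr m₀ δ lam k

/-- the sequences which stay below the threshold of the weights, with small final potential -/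
theorem pot_seqs (η₁ η δ lam M m₀ : ℝ) (hη₁ : 0 ≤ η₁) (hη₁1 : η₁ ≤ 1) (hη : 0 ≤ η) (hδ : 0 ≤ δ) (hl : 0 < lam) (hM : 0 < M)
    (hm : 0 ≤ m₀) (R : α → β → Prop) (S : Finset β) (W : Finset α) (hR : Reg2 η₁ η δ S W R) (hW : W.Nonempty) (k : ℕ) :
    (((seqs S k).filter (fun s => Low δ lam M m₀ R W s)).card : ℝ) ≤
      (S.card : ℝ) ^ k * (m₀ * Real.exp (rho η₁ η δ lam M * k) / W.card) := by
  have h1 := pot η₁ η δ lam M m₀ hη₁ hη₁1 hη hδ hl hM hm R S W hR hW k 0 (fun _ => 0)
  have h2 := seq_count S R (fun t f => ∀ n ∈ W, M * lam ^ f n ≤ thr m₀ δ lam t)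
    (fun t f => Z lam W f ≤ thr m₀ δ lam t) k 0 (fun _ => 0)
  have h3 : Z lam W (fun _ => 0) = W.card := by
    unfold Z
    simp
  have h4 : thr m₀ δ lam 0 = m₀ := by
    unfold thr
    simp
  rw [h3, h4] at h1
  refine le_trans ?_ h1
  refine le_trans ?_ (Nat.cast_le.2 h2)
  apply Nat.cast_le.2
  apply card_le_card
  intro s hs
  rw [mem_filter] at hs ⊢
  obtain ⟨h5, h6, h7⟩ := hs
  refine ⟨h5, fun j hj => ?_, ?_⟩
  · intro n hn
    have := h6 j hj n hn
    rw [zero_add]
    simpa using this
  · have h8 : (fun n => 0 + hit R s n) = hit R s := by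
      funext n
      rw [zero_add]
    rw [zero_add, h8]
    exact h7

end Pool.Agent.Q145.MD
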