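import Pool.Agent.Q145.MD.Max

set_option autoImplicit false
set_option maxHeartbeats 4000000

/-! # From weights to windows, moderate deviations -/

namespace Pool.Agent.Q145.MD

open Finset Filter
open Pool.Agent.Q145.LD (hit Z)

open scoped Classical

variable {α β : Type}

theorem exp3 (y : ℝ) (hy : |y| ≤ 1) : |Real.exp y - 1 - y - y ^ 2 / 2| ≤ |y| ^ 3 / 4 := by
  have h := Real.exp_bound hy (n := 3) (by norm_num)
  have h1 : ∑ m ∈ range 3, y ^ m / (m.factorial : ℝ) = 1 + y + y ^ 2 / 2 := by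
    rw [sum_range_succ, sum_range_succ, sum_range_succ, sum_range_zero]
    norm_num [Nat.factorial]
  rw [h1] at h
  have h2 : Real.exp y - (1 + y + y ^ 2 / 2) = Real.exp y - 1 - y - y ^ 2 / 2 := by ring
  rw [h2] at h
  refine h.trans ?_
  have h3 : ((Nat.succ 3 : ℕ) : ℝ) / (((Nat.factorial 3 : ℕ) : ℝ) * ((3 : ℕ) : ℝ)) = 2 / 9 := by
    norm_num [Nat.factorial]
  rw [h3]
  have := pow_nonneg (abs_nonneg y) 3
  linarith

theorem exp2 (y : ℝ) (hy : |y| ≤ 1) : Real.exp y - 1 - y ≤ y ^ 2 := by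
  have := Real.abs_exp_sub_one_sub_id_le hy
  exact (le_abs_self _).trans this

/-- many points in the window -/
theorem window (σ ς w μ A ε₃ : ℝ) (hσ : |σ| ≤ 1 / 2) (hς : 0 < ς) (hς1 : ς ≤ 1) (hμ : 0 ≤ μ)
    (hgain : μ * (2 * ς ^ 2 + ς * σ ^ 2) + 3 * ε₃ * A ≤ ς * w)
    (hA1 : Real.exp (-(ε₃ * A)) ≤ 1 / 4)
    (W : Finset α) (f : α → ℕ)
    (h1 : W.card * Real.exp ((Real.exp σ - 1) * μ - ε₃ * A) ≤ Z (Real.exp σ) W f)
    (h2 : Z (Real.exp (σ + ς)) W f ≤ W.card * Real.exp ((Real.exp (σ + ς) - 1) * μ + ε₃ * A))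
    (h3 : Z (Real.exp (σ - ς)) W f ≤ W.card * Real.exp ((Real.exp (σ - ς) - 1) * μ + ε₃ * A)) :
    W.card * Real.exp (-(μ * (σ ^ 2 / 2 + |σ| ^ 3) + |σ| * w + 2 * ε₃ * A)) ≤
      ((W.filter (fun n => |(f n : ℝ) - μ * (1 + σ)| ≤ w)).card : ℝ) := by
  have hW0 : (0 : ℝ) ≤ W.card := Nat.cast_nonneg _
  set m : ℝ := W.card * Real.exp ((Real.exp σ - 1) * μ - ε₃ * A) with hm
  have hm0 : 0 ≤ m := by positivity
  have hσ1 : |σ| ≤ 1 := by linarith
  have hg2 : Real.exp σ - 1 - σ ≤ σ ^ 2 := exp2 σ hσ1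
  have hge : Real.exp σ ≤ 2 := by
    have h4 := abs_le.1 hσ
    nlinarith [sq_nonneg σ]
  have hςabs : |ς| ≤ 1 := by rw [abs_of_pos hς]; exact hς1
  have hp2 : Real.exp ς - 1 - ς ≤ ς ^ 2 := exp2 ς hςabs
  have hn2 : Real.exp (-ς) - 1 - -ς ≤ ς ^ 2 := by
    have := exp2 (-ς) (by rw [abs_neg]; exact hςabs)
    rwa [neg_sq] at this
  have he0 := Real.exp_pos σ
  have hs0 : 0 ≤ Real.exp σ - 1 - σ := by linarith [Real.add_one_le_exp σ]
  have hn0 : 0 ≤ Real.exp (-ς) - 1 - -ς := by linarith [Real.add_one_le_exp (-ς)]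
  -- the points outside the window
  have k1 : ∑ n ∈ W.filter (fun n => ¬ |(f n : ℝ) - μ * (1 + σ)| ≤ w), Real.exp σ ^ f n ≤
      Real.exp (-(ς * (μ * (1 + σ) + w))) * Z (Real.exp (σ + ς)) W f +
      Real.exp (ς * (μ * (1 + σ) - w)) * Z (Real.exp (σ - ς)) W f := by
    unfold Z
    rw [mul_sum, mul_sum, ← sum_add_distrib]
    have k2 : ∀ n ∈ W.filter (fun n => ¬ |(f n : ℝ) - μ * (1 + σ)| ≤ w), Real.exp σ ^ f n ≤
        Real.exp (-(ς * (μ * (1 + σ) + w))) * Real.exp (σ + ς) ^ f n +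
        Real.exp (ς * (μ * (1 + σ) - w)) * Real.exp (σ - ς) ^ f n := by
      intro n hn
      have h4 := (mem_filter.1 hn).2
      rw [abs_le, not_and_or, not_le, not_le] at h4
      rw [← Real.exp_nat_mul, ← Real.exp_nat_mul, ← Real.exp_nat_mul, ← Real.exp_add, ← Real.exp_add]
      rcases h4 with h4 | h4
      · have e4 : Real.exp (f n * σ) ≤ Real.exp (ς * (μ * (1 + σ) - w) + f n * (σ - ς)) := by
          apply Real.exp_le_exp.2
          have : ς * (μ * (1 + σ) - w) + f n * (σ - ς) = f n * σ + ς * (μ * (1 + σ) - w - f n) := by ring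
          rw [this]
          have : 0 ≤ ς * (μ * (1 + σ) - w - f n) := mul_nonneg hς.le (by linarith)
          linarith
        have e5 := Real.exp_pos (-(ς * (μ * (1 + σ) + w)) + f n * (σ + ς))
        linarith
      · have e4 : Real.exp (f n * σ) ≤ Real.exp (-(ς * (μ * (1 + σ) + w)) + f n * (σ + ς)) := by
          apply Real.exp_le_exp.2
          have : -(ς * (μ * (1 + σ) + w)) + f n * (σ + ς) = f n * σ + ς * (f n - μ * (1 + σ) - w) := by ring
          rw [this]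
          have : 0 ≤ ς * (f n - μ * (1 + σ) - w) := mul_nonneg hς.le (by linarith)
          linarith
        have e5 := Real.exp_pos (ς * (μ * (1 + σ) - w) + f n * (σ - ς))
        linarith
    refine (sum_le_sum k2).trans ?_
    apply sum_le_sum_of_subset_of_nonneg (filter_subset _ _)
    intro n _ _
    positivity
  have k3 : Real.exp (-(ς * (μ * (1 + σ) + w))) * Z (Real.exp (σ + ς)) W f ≤ m * (1 / 4) := by
    calc Real.exp (-(ς * (μ * (1 + σ) + w))) * Z (Real.exp (σ + ς)) W f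
        ≤ Real.exp (-(ς * (μ * (1 + σ) + w))) * (W.card * Real.exp ((Real.exp (σ + ς) - 1) * μ + ε₃ * A)) :=
          mul_le_mul_of_nonneg_left h2 (Real.exp_pos _).le
      _ = W.card * Real.exp (-(ς * (μ * (1 + σ) + w)) + ((Real.exp (σ + ς) - 1) * μ + ε₃ * A)) := by
          rw [Real.exp_add (-(ς * (μ * (1 + σ) + w)))]
          ring
      _ ≤ W.card * Real.exp (((Real.exp σ - 1) * μ - ε₃ * A) + -(ε₃ * A)) := by
          apply mul_le_mul_of_nonneg_left _ hW0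
          apply Real.exp_le_exp.2
          have e1 : Real.exp (σ + ς) - 1 = (Real.exp σ - 1) + ς * (1 + σ) + (Real.exp σ * (Real.exp ς - 1 - ς) +
              ς * (Real.exp σ - 1 - σ)) := by
            rw [Real.exp_add]
            ring
          have e2 : Real.exp σ * (Real.exp ς - 1 - ς) + ς * (Real.exp σ - 1 - σ) ≤ 2 * ς ^ 2 + ς * σ ^ 2 := by
            have f1 : Real.exp σ * (Real.exp ς - 1 - ς) ≤ 2 * ς ^ 2 := by
              calc Real.exp σ * (Real.exp ς - 1 - ς) ≤ Real.exp σ * ς ^ 2 := mul_le_mul_of_nonneg_left hp2 he0.le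
                _ ≤ 2 * ς ^ 2 := mul_le_mul_of_nonneg_right hge (sq_nonneg _)
            have f2 : ς * (Real.exp σ - 1 - σ) ≤ ς * σ ^ 2 := mul_le_mul_of_nonneg_left hg2 hς.le
            linarith
          have e3 := mul_le_mul_of_nonneg_left e2 hμ
          rw [e1]
          nlinarith
      _ = m * Real.exp (-(ε₃ * A)) := by rw [Real.exp_add, hm]; ring
      _ ≤ m * (1 / 4) := mul_le_mul_of_nonneg_left hA1 hm0
  have k4 : Real.exp (ς * (μ * (1 + σ) - w)) * Z (Real.exp (σ - ς)) W f ≤ m * (1 / 4) := by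
    calc Real.exp (ς * (μ * (1 + σ) - w)) * Z (Real.exp (σ - ς)) W f
        ≤ Real.exp (ς * (μ * (1 + σ) - w)) * (W.card * Real.exp ((Real.exp (σ - ς) - 1) * μ + ε₃ * A)) :=
          mul_le_mul_of_nonneg_left h3 (Real.exp_pos _).le
      _ = W.card * Real.exp (ς * (μ * (1 + σ) - w) + ((Real.exp (σ - ς) - 1) * μ + ε₃ * A)) := by
          rw [Real.exp_add (ς * (μ * (1 + σ) - w))]
          ring
      _ ≤ W.card * Real.exp (((Real.exp σ - 1) * μ - ε₃ * A) + -(ε₃ * A)) := by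
          apply mul_le_mul_of_nonneg_left _ hW0
          apply Real.exp_le_exp.2
          have e1 : Real.exp (σ - ς) - 1 = (Real.exp σ - 1) - ς * (1 + σ) + (Real.exp σ * (Real.exp (-ς) - 1 - -ς) -
              ς * (Real.exp σ - 1 - σ)) := by
            rw [sub_eq_add_neg σ ς, Real.exp_add]
            ring
          have e2 : Real.exp σ * (Real.exp (-ς) - 1 - -ς) - ς * (Real.exp σ - 1 - σ) ≤ 2 * ς ^ 2 + ς * σ ^ 2 := by
            have f1 : Real.exp σ * (Real.exp (-ς) - 1 - -ς) ≤ 2 * ς ^ 2 := by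
              calc Real.exp σ * (Real.exp (-ς) - 1 - -ς) ≤ Real.exp σ * ς ^ 2 := mul_le_mul_of_nonneg_left hn2 he0.le
                _ ≤ 2 * ς ^ 2 := mul_le_mul_of_nonneg_right hge (sq_nonneg _)
            have f2 : 0 ≤ ς * (Real.exp σ - 1 - σ) := mul_nonneg hς.le hs0
            have f3 : 0 ≤ ς * σ ^ 2 := mul_nonneg hς.le (sq_nonneg _)
            linarith
          have e3 := mul_le_mul_of_nonneg_left e2 hμ
          rw [e1]
          nlinarith
      _ = m * Real.exp (-(ε₃ * A)) := by rw [Real.exp_add, hm]; ring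
      _ ≤ m * (1 / 4) := mul_le_mul_of_nonneg_left hA1 hm0
  -- the points in the window
  have k5 : m / 2 ≤ ∑ n ∈ W.filter (fun n => |(f n : ℝ) - μ * (1 + σ)| ≤ w), Real.exp σ ^ f n := by
    have e1 := sum_filter_add_sum_filter_not W (fun n => |(f n : ℝ) - μ * (1 + σ)| ≤ w) (fun n => Real.exp σ ^ f n)
    have e2 : Z (Real.exp σ) W f = ∑ n ∈ W, Real.exp σ ^ f n := rfl
    rw [← e2] at e1
    linarith
  have k6 : ∀ n ∈ W.filter (fun n => |(f n : ℝ) - μ * (1 + σ)| ≤ w), Real.exp σ ^ f n ≤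
      Real.exp (μ * (1 + σ) * σ + |σ| * w) := by
    intro n hn
    have e1 := (mem_filter.1 hn).2
    rw [← Real.exp_nat_mul]
    apply Real.exp_le_exp.2
    have e3 : ((f n : ℝ) - μ * (1 + σ)) * σ ≤ |σ| * w := by
      calc ((f n : ℝ) - μ * (1 + σ)) * σ ≤ |((f n : ℝ) - μ * (1 + σ)) * σ| := le_abs_self _
        _ = |σ| * |(f n : ℝ) - μ * (1 + σ)| := by rw [abs_mul, mul_comm]
        _ ≤ _ := mul_le_mul_of_nonneg_left e1 (abs_nonneg _)
    linarith
  set N : ℝ := ((W.filter (fun n => |(f n : ℝ) - μ * (1 + σ)| ≤ w)).card : ℝ) with hN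
  have k7 : m / 2 ≤ N * Real.exp (μ * (1 + σ) * σ + |σ| * w) := by
    refine k5.trans ((sum_le_sum k6).trans (le_of_eq ?_))
    rw [sum_const, nsmul_eq_mul]
  have k8 : W.card * Real.exp (-(μ * (σ ^ 2 / 2 + |σ| ^ 3) + |σ| * w + 2 * ε₃ * A)) *
      Real.exp (μ * (1 + σ) * σ + |σ| * w) ≤ m / 2 := by
    rw [mul_assoc, ← Real.exp_add]
    have e1 : Real.exp (-(μ * (σ ^ 2 / 2 + |σ| ^ 3) + |σ| * w + 2 * ε₃ * A) + (μ * (1 + σ) * σ + |σ| * w)) ≤
        Real.exp (((Real.exp σ - 1) * μ - ε₃ * A) + -(ε₃ * A)) := by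
      apply Real.exp_le_exp.2
      have f1 := (abs_le.1 (exp3 σ hσ1)).1
      have f2 : 0 ≤ |σ| ^ 3 := pow_nonneg (abs_nonneg σ) 3
      have f3 : σ + σ ^ 2 / 2 - |σ| ^ 3 ≤ Real.exp σ - 1 := by linarith
      have f4 := mul_le_mul_of_nonneg_right f3 hμ
      nlinarith
    rw [Real.exp_add ((Real.exp σ - 1) * μ - ε₃ * A)] at e1
    calc (W.card : ℝ) * Real.exp (-(μ * (σ ^ 2 / 2 + |σ| ^ 3) + |σ| * w + 2 * ε₃ * A) + (μ * (1 + σ) * σ + |σ| * w)) ≤
        W.card * (Real.exp ((Real.exp σ - 1) * μ - ε₃ * A) * Real.exp (-(ε₃ * A))) := mul_le_mul_of_nonneg_left e1 hW0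
      _ = m * Real.exp (-(ε₃ * A)) := by rw [hm]; ring
      _ ≤ m * (1 / 4) := mul_le_mul_of_nonneg_left hA1 hm0
      _ ≤ m / 2 := by linarith
  exact le_of_mul_le_mul_right (k8.trans k7) (Real.exp_pos _)

/-- few points with large deviations (`σ ≥ 0`: above, `σ ≤ 0`: below) -/
theorem tail (σ μ A ε₃ : ℝ) (hσ : |σ| ≤ 1 / 2) (hμ : 0 ≤ μ)
    (W : Finset α) (f : α → ℕ) (B : Finset α) (hB : B ⊆ W)
    (hdev : ∀ n ∈ B, σ * (μ * (1 + σ)) ≤ σ * f n)
    (h2 : Z (Real.exp σ) W f ≤ W.card * Real.exp ((Real.exp σ - 1) * μ + ε₃ * A)) :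
    (B.card : ℝ) ≤ W.card * Real.exp (-(μ * (σ ^ 2 / 2 - |σ| ^ 3)) + ε₃ * A) := by
  have hσ1 : |σ| ≤ 1 := by linarith
  have h3 : (B.card : ℝ) * Real.exp (σ * (μ * (1 + σ))) ≤ Z (Real.exp σ) W f := by
    unfold Z
    calc (B.card : ℝ) * Real.exp (σ * (μ * (1 + σ))) = ∑ _n ∈ B, Real.exp (σ * (μ * (1 + σ))) := by
          rw [sum_const, nsmul_eq_mul]
      _ ≤ ∑ n ∈ B, Real.exp σ ^ f n := by
          apply sum_le_sum
          intro n hn
          rw [← Real.exp_nat_mul]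
          apply Real.exp_le_exp.2
          have := hdev n hn
          linarith
      _ ≤ _ := sum_le_sum_of_subset_of_nonneg hB (fun _ _ _ => by positivity)
  have h4 := h3.trans h2
  have h5 : (W.card : ℝ) * Real.exp ((Real.exp σ - 1) * μ + ε₃ * A) ≤
      (W.card * Real.exp (-(μ * (σ ^ 2 / 2 - |σ| ^ 3)) + ε₃ * A)) * Real.exp (σ * (μ * (1 + σ))) := by
    rw [mul_assoc, ← Real.exp_add]
    apply mul_le_mul_of_nonneg_left _ (Nat.cast_nonneg _)
    apply Real.exp_le_exp.2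
    have f1 := (abs_le.1 (exp3 σ hσ1)).2
    have f2 : 0 ≤ |σ| ^ 3 := pow_nonneg (abs_nonneg σ) 3
    have f3 : Real.exp σ - 1 ≤ σ + σ ^ 2 / 2 + |σ| ^ 3 := by linarith
    have f4 := mul_le_mul_of_nonneg_right f3 hμ
    nlinarith
  exact le_of_mul_le_mul_right (h4.trans h5) (Real.exp_pos _)

end Pool.Agent.Q145.MD
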